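import Pool.Agent.CvD.Bq

/-!
# Package CvD-Fro: reducibility over the algebraic closure

`K` is the algebraic closure of `ZMod p`, `F' ∈ K[X][Y]` the image of `F`, `Φ_i` the ring endomorphism of
`K[X][Y]` given by the `i`-th iterate of the Frobenius map on the coefficients
(`mapRingHom (mapRingHom (iterateFrobenius K p i))`); it is bijective (`K` is perfect), `Φ_i F' = F'`.

*`red_ex`*. Complete proof. `F'` is not `0`, not a unit (a unit of `K[X][Y]` is a nonzero constant) and not
irreducible. Let `G` be an irreducible factor of `F'`, normalised: divide by one of its nonzero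
coefficients, so that the coefficient at some place is `1`. The `Φ_i G`, `i = 0, …, 2 D`, are
irreducible, divide `F'`, and have the coefficient `1` at the same place. If no two of them were
associated, their product would divide `F'`; but each has degree at least `1` in `X` or in `Y`, and the
sum of the two degrees of `F'` is at most `2 D` (degree in `Y`: `natDegree_mul`; degree in `X`: the same
after `Polynomial.Bivariate.swap`). So two of them are associated, hence equal (units are constants),
`Φ_a G = Φ_b G`, `a < b`, and `Φ_j G = G` for `j = b - a ≤ 2 D` by injectivity. Let `F' = G H`; then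
`Φ_j H = H`. So all coefficients of `G`, `H` are in the subfield `K_j = {z | z ^ (p ^ j) = z}`, which has
`p ^ j` elements (`X ^ (p ^ j) - X` is separable and splits). Let `h ∈ (ZMod p)[X]` be monic
irreducible of degree `j` (the minimal polynomial of a generator of the finite field `K_j`, or of
`GaloisField p j`). `AdjoinRoot h` has `p ^ j` elements, so it is isomorphic to `K_j`
(`FiniteField.ringEquivOfCardEq`; every ring homomorphism is the identity on `ZMod p`). Transport `G`,
`H`. They are not units: `G` is irreducible, and if `H` were a unit, `F'` would be irreducible.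

*`red_of`*. There is a ring homomorphism `AdjoinRoot h → K` (a root of `h` in `K`); it is injective, and a
polynomial in `L[X][Y]`, `L` a field, is a unit if and only if it is a nonzero constant. So the images of `G`,
`H` are nonunits with product `F'` (if `G = 0` or `H = 0` then `F' = 0` is not irreducible).
-/

set_option autoImplicit false

namespace Pool.Agent.CvD

open Finset Polynomial
open scoped Polynomial.Bivariate

private theorem unit_map {L K : Type} [Field L] [Field K] (ι : L →+* K) {G : L[X][Y]}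
    (h : IsUnit (G.map (mapRingHom ι))) : IsUnit G := by
  obtain ⟨a, ha, he⟩ := (unit_iff _).1 h
  have hc : ∀ n m, ι ((G.coeff n).coeff m) = ((C (C a) : K[X][Y]).coeff n).coeff m := by
    intro n m
    rw [← he, coeff_map, coe_mapRingHom, coeff_map]
  refine (unit_iff _).2 ⟨(G.coeff 0).coeff 0, fun h0 => ha ?_, ?_⟩
  · have h1 := hc 0 0
    rw [h0, map_zero, coeff_C_zero, coeff_C_zero] at h1
    exact h1.symm
  · ext n m
    rcases Nat.eq_zero_or_pos n with rfl | hn
    · rw [coeff_C_zero]
      rcases Nat.eq_zero_or_pos m with rfl | hm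
      · rw [coeff_C_zero]
      · have h1 := hc 0 m
        rw [coeff_C_zero, coeff_C_of_ne_zero hm.ne', map_eq_zero] at h1
        rw [h1, coeff_C_of_ne_zero hm.ne']
    · have h1 := hc n m
      rw [coeff_C_of_ne_zero hn.ne', coeff_zero, map_eq_zero] at h1
      rw [h1, coeff_C_of_ne_zero hn.ne', coeff_zero]

private theorem emb {p : ℕ} [Fact p.Prime] {h : (ZMod p)[X]} (hh : Irreducible h) :
    ∃ ι : AdjoinRoot h →+* AlgebraicClosure (ZMod p),
      ι.comp (AdjoinRoot.of h) = algebraMap (ZMod p) (AlgebraicClosure (ZMod p)) := by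
  have hd : h.degree ≠ 0 := by
    have h1 := hh.degree_pos
    exact h1.ne'
  obtain ⟨r, hr⟩ := IsAlgClosed.exists_aeval_eq_zero (AlgebraicClosure (ZMod p)) h hd
  refine ⟨AdjoinRoot.lift (algebraMap _ _) r ?_, ?_⟩
  · rw [← hr, aeval_def]
  · exact Subsingleton.elim _ _

private theorem map_ne_zero' {L K : Type} [Field L] [Field K] (ι : L →+* K) {G : L[X][Y]}
    (h : G ≠ 0) : G.map (mapRingHom ι) ≠ 0 := by
  have h1 : Function.Injective (mapRingHom ι) := by
    rw [coe_mapRingHom]
    exact map_injective ι ι.injective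
  exact (Polynomial.map_ne_zero_iff h1).2 h

private theorem dX_map {L K : Type} [Field L] [Field K] (ι : L →+* K) (G : L[X][Y]) :
    dX (G.map (mapRingHom ι)) = dX G := by
  have hc : ∀ n, ((G.map (mapRingHom ι)).coeff n).natDegree = (G.coeff n).natDegree := by
    intro n
    rw [coeff_map, coe_mapRingHom, natDegree_map]
  apply le_antisymm
  · rw [dX_le]
    intro n
    rw [hc]
    exact dX_le.1 le_rfl n
  · rw [dX_le]
    intro n
    rw [← hc]
    exact dX_le.1 le_rfl n

private theorem nd_map {L K : Type} [Field L] [Field K] (ι : L →+* K) (G : L[X][Y]) :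
    (G.map (mapRingHom ι)).natDegree = G.natDegree := by
  have h1 : Function.Injective (mapRingHom ι) := by
    rw [coe_mapRingHom]
    exact map_injective ι ι.injective
  exact natDegree_map_eq_of_injective h1 G

private theorem dX_one {K : Type} [Field K] : dX (1 : K[X][Y]) = 0 := by
  refine Nat.le_zero.1 (dX_le.2 fun j => ?_)
  rw [coeff_one]
  split_ifs
  · rw [natDegree_one]
  · rw [natDegree_zero]

private theorem dX_prod {K : Type} [Field K] {α : Type} (s : Finset α) (g : α → K[X][Y])
    (h : ∀ i ∈ s, g i ≠ 0) :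
    dX (∏ i ∈ s, g i) + (∏ i ∈ s, g i).natDegree = ∑ i ∈ s, (dX (g i) + (g i).natDegree) := by
  classical
  induction s using Finset.induction_on with
  | empty => simp [dX_one]
  | insert a s ha ih =>
    have h1 : g a ≠ 0 := h a (Finset.mem_insert_self _ _)
    have h2 : ∏ i ∈ s, g i ≠ 0 := Finset.prod_ne_zero_iff.2 fun i hi =>
      h i (Finset.mem_insert_of_mem hi)
    rw [Finset.prod_insert ha, Finset.sum_insert ha, dX_mul h1 h2, natDegree_mul h1 h2,
      ← ih fun i hi => h i (Finset.mem_insert_of_mem hi)]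
    ring

private theorem nz {K : Type} [Field K] {G : K[X][Y]} (h : G ≠ 0) :
    ∃ n m, (G.coeff n).coeff m ≠ 0 := by
  by_contra hc
  push Not at hc
  apply h
  ext n m
  rw [hc n m, coeff_zero, coeff_zero]

/-- an irreducible polynomial all whose conjugates divide `F` has coefficients in a finite field -/
private theorem period {K : Type} [Field K] {p : ℕ} [Fact p.Prime] [CharP K p] [PerfectRing K p]
    {D : ℕ} {F G : K[X][Y]} (hF0 : F ≠ 0) (hdX : dX F ≤ D) (hnd : F.natDegree ≤ D)
    (hG : Irreducible G)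
    (hdvd : ∀ i, (G.map (mapRingHom (iterateFrobenius K p i))) ∣ F) {n m : ℕ}
    (h1 : (G.coeff n).coeff m = 1) :
    ∃ j, 1 ≤ j ∧ j ≤ 2 * D ∧ ∀ n m, ((G.coeff n).coeff m) ^ (p ^ j) = (G.coeff n).coeff m := by
  classical
  set Φ : ℕ → K[X][Y] := fun i => G.map (mapRingHom (iterateFrobenius K p i)) with hΦ
  have hco : ∀ i n m, ((Φ i).coeff n).coeff m = ((G.coeff n).coeff m) ^ (p ^ i) := by
    intro i n m
    simp only [hΦ]
    rw [coeff_map, coe_mapRingHom, coeff_map, iterateFrobenius_def]
  have hirr : ∀ i, Irreducible (Φ i) := by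
    intro i
    have he : Φ i = mapEquiv (mapEquiv (iterateFrobeniusEquiv K p i)) G := by
      ext n m
      rw [hco, mapEquiv_apply, coeff_map]
      simp [iterateFrobenius_def]
    rw [he]
    exact (MulEquiv.irreducible_iff (mapEquiv (mapEquiv (iterateFrobeniusEquiv K p i)))).2 hG
  have hne : ∀ i, Φ i ≠ 0 := fun i => (hirr i).ne_zero
  -- two of the conjugates are equal
  have hex : ∃ a b, a < b ∧ b ≤ 2 * D ∧ Associated (Φ a) (Φ b) := by
    by_contra hc
    push Not at hc
    have hrel : ∀ a b, a < b → b ≤ 2 * D → IsRelPrime (Φ a) (Φ b) := by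
      intro a b hab hb
      rw [(hirr a).isRelPrime_iff_not_dvd]
      intro hd
      exact hc a b hab hb ((hirr a).associated_of_dvd (hirr b) hd)
    have hpd : ∏ i ∈ Finset.range (2 * D + 1), Φ i ∣ F := by
      refine Finset.prod_dvd_of_isRelPrime ?_ fun i _ => hdvd i
      intro a ha b hb hab
      have ha' := Finset.mem_range.1 (Finset.mem_coe.1 ha)
      have hb' := Finset.mem_range.1 (Finset.mem_coe.1 hb)
      rcases lt_or_gt_of_ne hab with h | h
      · exact hrel a b h (by omega)
      · exact (hrel b a h (by omega)).symm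
    obtain ⟨R, hR⟩ := hpd
    have hP0 : ∏ i ∈ Finset.range (2 * D + 1), Φ i ≠ 0 :=
      Finset.prod_ne_zero_iff.2 fun i _ => hne i
    have hR0 : R ≠ 0 := by
      rintro rfl
      exact hF0 (by rw [hR, mul_zero])
    have e1 : dX F = dX (∏ i ∈ Finset.range (2 * D + 1), Φ i) + dX R := by
      rw [hR, dX_mul hP0 hR0]
    have e2 : F.natDegree = (∏ i ∈ Finset.range (2 * D + 1), Φ i).natDegree + R.natDegree := by
      rw [hR, natDegree_mul hP0 hR0]
    have e3 := dX_prod (Finset.range (2 * D + 1)) Φ fun i _ => hne i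
    have e4 : ∑ _i ∈ Finset.range (2 * D + 1), 1 ≤
        ∑ i ∈ Finset.range (2 * D + 1), (dX (Φ i) + (Φ i).natDegree) :=
      Finset.sum_le_sum fun i _ => nonunit_pos (hne i) (hirr i).not_isUnit
    rw [Finset.sum_const, Finset.card_range, smul_eq_mul, mul_one] at e4
    omega
  obtain ⟨a, b, hab, hb, has⟩ := hex
  obtain ⟨u, hu⟩ := has
  obtain ⟨c, hc, huc⟩ := (unit_iff _).1 u.isUnit
  have hcc : ∀ n m, ((Φ a).coeff n).coeff m * c = ((Φ b).coeff n).coeff m := by
    intro n m
    rw [← hu, huc, coeff_mul_C, coeff_mul_C]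
  have hc1 : c = 1 := by
    have := hcc n m
    rw [hco, hco, h1, one_pow, one_pow, one_mul] at this
    exact this
  refine ⟨b - a, by omega, by omega, fun n m => ?_⟩
  have h2 := hcc n m
  rw [hco, hco, hc1, mul_one] at h2
  have h3 : b = (b - a) + a := by omega
  rw [h3, pow_add, pow_mul] at h2
  have h4 := iterateFrobenius_inj K p a
  have h5 : iterateFrobenius K p a (((G.coeff n).coeff m) ^ (p ^ (b - a))) =
      iterateFrobenius K p a ((G.coeff n).coeff m) := by
    rw [iterateFrobenius_def, iterateFrobenius_def]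
    exact h2.symm
  exact h4 h5

private theorem lifts2 {L K : Type} [Field L] [Field K] (ι : L →+* K) {G : K[X][Y]}
    (h : ∀ n m, ∃ x, ι x = (G.coeff n).coeff m) : ∃ G' : L[X][Y], G'.map (mapRingHom ι) = G := by
  have h1 : G ∈ Polynomial.lifts (mapRingHom ι) := by
    rw [lifts_iff_coeff_lifts]
    intro n
    have h2 : G.coeff n ∈ Polynomial.lifts ι := by
      rw [lifts_iff_coeff_lifts]
      intro m
      obtain ⟨x, hx⟩ := h n m
      exact ⟨x, hx⟩
    obtain ⟨q, hq⟩ := (mem_lifts _).1 h2
    exact ⟨q, by rw [coe_mapRingHom, hq]⟩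
  exact (mem_lifts _).1 h1

private theorem exists_irr (p : ℕ) [Fact p.Prime] {j : ℕ} (hj : 1 ≤ j) :
    ∃ h : (ZMod p)[X], h.Monic ∧ h.natDegree = j ∧ Irreducible h := by
  obtain ⟨α, hα⟩ := Field.exists_primitive_element (ZMod p) (GaloisField p j)
  have hint : IsIntegral (ZMod p) α := IsIntegral.of_finite _ _
  refine ⟨minpoly (ZMod p) α, minpoly.monic hint, ?_, minpoly.irreducible hint⟩
  rw [← IntermediateField.adjoin.finrank hint, hα, IntermediateField.finrank_top',
    GaloisField.finrank p (by omega)]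

private theorem card_fix {K : Type} [Field K] {p : ℕ} [Fact p.Prime] {h : (ZMod p)[X]}
    (hh : Irreducible h) (ι : AdjoinRoot h →+* K) {z : K}
    (hz : z ^ (p ^ h.natDegree) = z) : ∃ x, ι x = z := by
  classical
  have := Fact.mk hh
  have hj : h.natDegree ≠ 0 := hh.natDegree_pos.ne'
  let B := AdjoinRoot.powerBasis hh.ne_zero
  have : Module.Finite (ZMod p) (AdjoinRoot h) := B.finite
  have : Finite (AdjoinRoot h) := Module.finite_of_finite (ZMod p)
  let _ : Fintype (AdjoinRoot h) := Fintype.ofFinite _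
  have hcard : Fintype.card (AdjoinRoot h) = p ^ h.natDegree := by
    rw [Module.card_eq_pow_finrank (K := ZMod p), ZMod.card, B.finrank,
      AdjoinRoot.powerBasis_dim]
  have hq : 1 < p ^ h.natDegree := Nat.one_lt_pow hj (Fact.out : p.Prime).one_lt
  set P : K[X] := X ^ (p ^ h.natDegree) - X with hP
  have hPd : P.natDegree = p ^ h.natDegree := FiniteField.X_pow_card_sub_X_natDegree_eq K hq
  have hP0 : P ≠ 0 := FiniteField.X_pow_card_sub_X_ne_zero K hq
  have himg : (Finset.univ.image ι) ⊆ P.roots.toFinset := by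
    intro y hy
    obtain ⟨x, -, rfl⟩ := Finset.mem_image.1 hy
    rw [Multiset.mem_toFinset, mem_roots hP0, IsRoot.def, hP]
    simp only [eval_sub, eval_pow, eval_X]
    rw [← map_pow, ← hcard, FiniteField.pow_card, sub_self]
  have hle : P.roots.toFinset.card ≤ (Finset.univ.image ι).card := by
    rw [Finset.card_image_of_injective _ ι.injective, Finset.card_univ, hcard, ← hPd]
    exact (Multiset.toFinset_card_le _).trans (card_roots' P)
  have heq := Finset.eq_of_subset_of_card_le himg hle
  have hzm : z ∈ P.roots.toFinset := by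
    rw [Multiset.mem_toFinset, mem_roots hP0, IsRoot.def, hP]
    simp only [eval_sub, eval_pow, eval_X]
    rw [hz, sub_self]
  rw [← heq] at hzm
  obtain ⟨x, -, hx⟩ := Finset.mem_image.1 hzm
  exact ⟨x, hx⟩

theorem red_ex {p : ℕ} [Fact p.Prime] {D : ℕ} {F : (ZMod p)[X][Y]} (hF : Bd D F) (h0 : F ≠ 0)
    (hu : ¬ IsUnit F) (hr : ¬ Irreducible
      (F.map (mapRingHom (algebraMap (ZMod p) (AlgebraicClosure (ZMod p)))))) :
    ∃ j, 1 ≤ j ∧ j ≤ 2 * D ∧ ∃ h : (ZMod p)[X], h.Monic ∧ h.natDegree = j ∧ Irreducible h ∧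
      ∃ G H : (AdjoinRoot h)[X][Y], ¬ IsUnit G ∧ ¬ IsUnit H ∧
        G * H = F.map (mapRingHom (AdjoinRoot.of h)) := by
  classical
  have : CharP (AlgebraicClosure (ZMod p)) p :=
    charP_of_injective_algebraMap (algebraMap (ZMod p) (AlgebraicClosure (ZMod p))).injective p
  set K := AlgebraicClosure (ZMod p) with hK
  set F' : K[X][Y] := F.map (mapRingHom (algebraMap (ZMod p) K)) with hF'
  have hF0 : F' ≠ 0 := map_ne_zero' _ h0
  have hFu : ¬ IsUnit F' := fun h => hu (unit_map _ h)
  obtain ⟨G0, hG0, hd0⟩ := WfDvdMonoid.exists_irreducible_factor hFu hF0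
  obtain ⟨n, m, hnm⟩ := nz hG0.ne_zero
  have hcu : IsUnit (C (C ((G0.coeff n).coeff m)⁻¹) : K[X][Y]) :=
    (unit_iff _).2 ⟨_, inv_ne_zero hnm, rfl⟩
  set G : K[X][Y] := C (C ((G0.coeff n).coeff m)⁻¹) * G0 with hGdef
  have hGa : Associated G0 G := associated_unit_mul_right G0 _ hcu
  have hG : Irreducible G := hGa.irreducible hG0
  have hGd : G ∣ F' := hGa.symm.dvd.trans hd0
  have hG1 : (G.coeff n).coeff m = 1 := by
    rw [hGdef, coeff_C_mul, coeff_C_mul, inv_mul_cancel₀ hnm]
  have hΦF : ∀ i, F'.map (mapRingHom (iterateFrobenius K p i)) = F' := by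
    intro i
    rw [hF', Polynomial.map_map, mapRingHom_comp]
    congr 2
    exact Subsingleton.elim _ _
  have hdvd : ∀ i, (G.map (mapRingHom (iterateFrobenius K p i))) ∣ F' := by
    intro i
    have h2 := Polynomial.map_dvd (mapRingHom (iterateFrobenius K p i)) hGd
    rwa [hΦF] at h2
  have hdX : dX F' ≤ D := by
    rw [hF', dX_map]
    exact dX_le.2 hF.2
  have hnd : F'.natDegree ≤ D := by
    rw [hF', nd_map]
    exact hF.1
  obtain ⟨j, hj1, hj2, hj⟩ := period hF0 hdX hnd hG hdvd hG1
  obtain ⟨H, hH⟩ := hGd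
  have hH0 : H ≠ 0 := by
    rintro rfl
    exact hF0 (by rw [hH, mul_zero])
  have hGfix : G.map (mapRingHom (iterateFrobenius K p j)) = G := by
    ext n m
    rw [coeff_map, coe_mapRingHom, coeff_map, iterateFrobenius_def, hj]
  have hHfix : H.map (mapRingHom (iterateFrobenius K p j)) = H := by
    have h2 := hΦF j
    rw [hH, Polynomial.map_mul, hGfix] at h2
    exact mul_left_cancel₀ hG.ne_zero h2
  have hHj : ∀ n m, ((H.coeff n).coeff m) ^ (p ^ j) = (H.coeff n).coeff m := by
    intro n m
    have h2 : ((H.map (mapRingHom (iterateFrobenius K p j))).coeff n).coeff m =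
        (H.coeff n).coeff m := by rw [hHfix]
    rwa [coeff_map, coe_mapRingHom, coeff_map, iterateFrobenius_def] at h2
  obtain ⟨h, hm, hdeg, hirr⟩ := exists_irr p hj1
  have := Fact.mk hirr
  obtain ⟨ι, hι⟩ := emb hirr
  obtain ⟨G', hG'⟩ := lifts2 ι (G := G) fun n m => card_fix hirr ι (by rw [hdeg, hj])
  obtain ⟨H', hH'⟩ := lifts2 ι (G := H) fun n m => card_fix hirr ι (by rw [hdeg, hHj])
  refine ⟨j, hj1, hj2, h, hm, hdeg, hirr, G', H', fun hc => ?_, fun hc => ?_, ?_⟩
  · have h2 := hc.map (mapRingHom (mapRingHom ι))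
    rw [coe_mapRingHom, hG'] at h2
    exact hG.not_isUnit h2
  · have h2 := hc.map (mapRingHom (mapRingHom ι))
    rw [coe_mapRingHom, hH'] at h2
    apply hr
    rw [hH]
    exact (associated_mul_unit_right G H h2).irreducible hG
  · have hinj : Function.Injective (mapRingHom (mapRingHom ι)) := by
      rw [coe_mapRingHom]
      refine map_injective _ ?_
      rw [coe_mapRingHom]
      exact map_injective ι ι.injective
    apply hinj
    rw [map_mul, coe_mapRingHom, hG', hH', ← hH, hF', Polynomial.map_map, mapRingHom_comp, hι]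

theorem red_of {p : ℕ} [Fact p.Prime] {F : (ZMod p)[X][Y]} {h : (ZMod p)[X]} (hh : Irreducible h)
    {G H : (AdjoinRoot h)[X][Y]} (hG : ¬ IsUnit G) (hH : ¬ IsUnit H)
    (he : G * H = F.map (mapRingHom (AdjoinRoot.of h))) :
    ¬ Irreducible (F.map (mapRingHom (algebraMap (ZMod p) (AlgebraicClosure (ZMod p))))) := by
  have := Fact.mk hh
  obtain ⟨ι, hι⟩ := emb hh
  intro hc
  have h1 : F.map (mapRingHom (algebraMap (ZMod p) (AlgebraicClosure (ZMod p)))) =
      G.map (mapRingHom ι) * H.map (mapRingHom ι) := by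
    rw [← Polynomial.map_mul, he, Polynomial.map_map, mapRingHom_comp, hι]
  rcases hc.isUnit_or_isUnit h1 with h2 | h2
  · exact hG (unit_map ι h2)
  · exact hH (unit_map ι h2)

end Pool.Agent.CvD
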