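import Pool.Agent.CvD.IrQ
import Pool.Agent.CvD.Fro
import Pool.Agent.PRc.Ext

/-!
# Package CvD-AiQ: absolute irreducibility is a first-order relation over prime fields

Complete proofs.

* `irp_prq`: `X ^ s + ∑_{l < s} x_l X ^ l` is irreducible if and only if `s ≥ 1` and it is not a product of
  two monic polynomials of degrees `a`, `b ≥ 1`, `a + b = s` (`Polynomial.Monic.irreducible_iff_…`);
  quantify over the coefficients of the factors for each of the finitely many `(a, b)`: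
  `PRQ.ex`, `PRQ.exF`.
* `ai_prq`: by `red_ex` and `red_of`, for `k = ZMod p`: `bq x` is absolutely irreducible if and only if it is
  not `0`, not a unit and for no `j` with `1 ≤ j ≤ 2 D` there are a monic irreducible `h` of degree `j` (given by `j`
  coefficients, `irp_prq`) and `G`, `H` over `AdjoinRoot h`, given by coordinates (`PRc.ext`,
  `ext_surj`), not units, with `G * H = F`; `G` and `H` have `Bd D` (`bd_left`), so `G = bq y`,
  `H = bq z` (`bq_surj`). The relation over `AdjoinRoot h`: `mul_prd`, `nu_prd` and `PRc.prd_ext`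
  (the coordinates of the coefficients of `F` are `(x, 0, …, 0)`: substitute by `PRF.comp` or `PRQ.comp`),
  then `PRQ.ex`, `PRQ.exF` over `j`. (Over `ZMod p`; the relation `Q` itself makes sense over all fields.)
* `ai_def`: `PRc.prq_delta`.
-/

set_option autoImplicit false

namespace Pool.Agent.CvD

open Finset Polynomial Pool.Agent.PRc Pool.Agent.Grz
open scoped Polynomial.Bivariate

/-- the monic polynomial with the given lower coefficients -/
private noncomputable def mn_AiQ {k : Type} [Field k] {s : ℕ} (x : Fin s → k) : k[X] :=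
  X ^ s + ∑ l : Fin s, C (x l) * X ^ (l : ℕ)

private theorem mn_monic {k : Type} [Field k] {s : ℕ} (x : Fin s → k) : (mn_AiQ x).Monic :=
  monic_X_pow_add (degree_sum_fin_lt x)

private theorem mn_deg {k : Type} [Field k] {s : ℕ} (x : Fin s → k) :
    (mn_AiQ x).natDegree = s := by
  unfold mn_AiQ
  rw [natDegree_add_eq_left_of_degree_lt, natDegree_X_pow]
  rw [degree_X_pow]
  exact degree_sum_fin_lt x

private theorem mn_coeff {k : Type} [Field k] {s : ℕ} (x : Fin s → k) (l : Fin s) :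
    (mn_AiQ x).coeff l = x l := by
  unfold mn_AiQ
  rw [coeff_add, coeff_X_pow, if_neg l.2.ne, zero_add, finsetSum_coeff,
    Finset.sum_eq_single l]
  · rw [coeff_C_mul, coeff_X_pow, if_pos rfl, mul_one]
  · intro b _ hb
    rw [coeff_C_mul, coeff_X_pow, if_neg fun h => hb (Fin.ext h.symm), mul_zero]
  · intro h
    exact absurd (Finset.mem_univ l) h

private theorem mn_of {k : Type} [Field k] {s : ℕ} {f : k[X]} (hf : f.Monic)
    (hs : f.natDegree = s) : mn_AiQ (fun l : Fin s => f.coeff l) = f := by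
  subst hs
  conv_rhs => rw [hf.as_sum]
  unfold mn_AiQ
  rw [Finset.sum_range]

private theorem mn_prp {ι : Type} {s : ℕ} {F : Fin s → FF ι} (hF : ∀ l, PRF (F l)) :
    PRP (fun k _ x => mn_AiQ fun l => F l k x) :=
  (PRP.X.pow s).add (PRP.ofFn hF)

theorem irp_prq (s : ℕ) : PRQ (ι := Fin s)
    (fun _ _ x => Irreducible (X ^ s + ∑ l : Fin s, C (x l) * X ^ (l : ℕ))) := by
  rcases Nat.eq_zero_or_pos s with rfl | hs
  · refine (PRQ.true (ι := Fin 0)).not.congr fun k _ x => ?_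
    simp
  have h1 : PRQ (ι := Fin s) (fun k _ x => ¬ ∃ q : {q : Fin (s + 1) × Fin (s + 1) //
      (q.1 : ℕ) + q.2 = s ∧ 1 ≤ (q.1 : ℕ) ∧ 1 ≤ (q.2 : ℕ)},
      ∃ z : Fin (q.1.1 : ℕ) ⊕ Fin (q.1.2 : ℕ) → k,
        mn_AiQ (fun l => z (Sum.inl l)) * mn_AiQ (fun l => z (Sum.inr l)) = mn_AiQ x) := by
    refine (PRQ.exF fun q => ?_).not
    refine PRQ.ex (P := fun k _ (v : Fin s ⊕ (Fin (q.1.1 : ℕ) ⊕ Fin (q.1.2 : ℕ)) → k) =>
      mn_AiQ (fun l => v (Sum.inr (Sum.inl l))) * mn_AiQ (fun l => v (Sum.inr (Sum.inr l))) =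
        mn_AiQ (fun l => v (Sum.inl l))) (PRQ.base ?_)
    exact PRD.eqP ((mn_prp fun l => PRF.var _).mul (mn_prp fun l => PRF.var _))
      (mn_prp fun l => PRF.var _)
  refine h1.congr fun k _ x => ?_
  have e0 : (X ^ s + ∑ l : Fin s, C (x l) * X ^ (l : ℕ)) = mn_AiQ x := rfl
  rw [e0, (mn_monic x).irreducible_iff_natDegree]
  have hne : mn_AiQ x ≠ 1 := by
    intro h
    have h2 := mn_deg x
    rw [h, natDegree_one] at h2
    omega
  constructor
  · intro h
    refine ⟨hne, fun f g hf hg hfg => ?_⟩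
    by_contra hcon
    rw [not_or] at hcon
    have hd : f.natDegree + g.natDegree = s := by
      rw [← hf.natDegree_mul hg, hfg, mn_deg]
    refine h ⟨⟨(⟨f.natDegree, by omega⟩, ⟨g.natDegree, by omega⟩), hd, by
      show 1 ≤ f.natDegree
      omega, by
      show 1 ≤ g.natDegree
      omega⟩, Sum.elim (fun l => f.coeff l) (fun l => g.coeff l), ?_⟩
    show mn_AiQ (fun l : Fin f.natDegree => f.coeff l) *
      mn_AiQ (fun l : Fin g.natDegree => g.coeff l) = _
    rw [mn_of hf rfl, mn_of hg rfl, hfg]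
  · rintro ⟨-, h⟩ ⟨⟨⟨a, b⟩, hab, ha, hb⟩, z, hz⟩
    have ha' : 1 ≤ (a : ℕ) := ha
    have hb' : 1 ≤ (b : ℕ) := hb
    rcases h _ _ (mn_monic _) (mn_monic _) hz with h2 | h2
    · have h3 : (a : ℕ) = 0 := (mn_deg _).symm.trans h2
      omega
    · have h3 : (b : ℕ) = 0 := (mn_deg _).symm.trans h2
      omega

/-- the relation over `AdjoinRoot h` -/
private def rel_AiQ (D : ℕ) : FR (Ix D ⊕ Ix D ⊕ Ix D) := fun _ _ x =>
  (bq (fun i => x (Sum.inl i)) * bq (fun i => x (Sum.inr (Sum.inl i))) =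
      bq (fun i => x (Sum.inr (Sum.inr i)))) ∧
    (¬ IsUnit (bq (fun i => x (Sum.inl i))) ∧ ¬ IsUnit (bq (fun i => x (Sum.inr (Sum.inl i)))))

private theorem rel_prd (D : ℕ) : PRD (rel_AiQ D) :=
  (mul_prd D).and (((nu_prd D).comp fun i => PRF.var (Sum.inl i)).and
    ((nu_prd D).comp fun i => PRF.var (Sum.inr (Sum.inl i))))

/-- the coordinates -/
private def cz_AiQ {k : Type} [Field k] {D j : ℕ} (w : (Ix D ⊕ Ix D) × Fin j → k)
    (x : Ix D → k) : (Ix D ⊕ Ix D ⊕ Ix D) × Fin j → k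
  | (Sum.inl i, l) => w (Sum.inl i, l)
  | (Sum.inr (Sum.inl i), l) => w (Sum.inr i, l)
  | (Sum.inr (Sum.inr i), l) => if (l : ℕ) = 0 then x i else 0

private theorem ext_of_AiQ {k : Type} [Field k] {s : ℕ} (hs : 0 < s) (h : k[X]) (a : k) :
    ext h (fun l : Fin s => if (l : ℕ) = 0 then a else 0) = AdjoinRoot.of h a := by
  unfold PRc.ext
  rw [Finset.sum_eq_single (⟨0, hs⟩ : Fin s)]
  · simp
  · intro b _ hb
    have h0 : ¬ (b : ℕ) = 0 := fun h0 => hb (Fin.ext h0)
    simp [h0]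
  · intro h0
    exact absurd (Finset.mem_univ _) h0

/-- the relation in `x`, for a given degree -/
private theorem deg_AiQ (D j : ℕ) (hj : 0 < j) : ∃ R : FR (Ix D), PRQ R ∧
    ∀ (k : Type) [Field k] (x : Ix D → k), R k x ↔
      ∃ (h : k[X]) (_ : Fact (Irreducible h)), h.Monic ∧ h.natDegree = j ∧
        ∃ w : (Ix D ⊕ Ix D) × Fin j → k, rel_AiQ D (AdjoinRoot h)
          (fun i => ext h fun l => cz_AiQ w x (i, l)) := by
  obtain ⟨Q, hQ, hQ'⟩ := prd_ext (rel_prd D) j hj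
  refine ⟨fun k _ x => ∃ a : Fin j → k, Irreducible (mn_AiQ a) ∧
    ∃ w : (Ix D ⊕ Ix D) × Fin j → k, Q k (Sum.elim (cz_AiQ w x) a), ?_, fun k _ x => ?_⟩
  · refine PRQ.ex (P := fun k _ (u : Ix D ⊕ Fin j → k) =>
      Irreducible (mn_AiQ fun l => u (Sum.inr l)) ∧
      ∃ w : (Ix D ⊕ Ix D) × Fin j → k,
        Q k (Sum.elim (cz_AiQ w fun i => u (Sum.inl i)) fun l => u (Sum.inr l))) ?_
    refine PRQ.and (((irp_prq j).comp fun l => PRF.var (Sum.inr l)).congr fun k _ x => Iff.rfl) ?_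
    refine PRQ.ex (P := fun k _ (v : (Ix D ⊕ Fin j) ⊕ ((Ix D ⊕ Ix D) × Fin j) → k) =>
      Q k (Sum.elim (cz_AiQ (fun q => v (Sum.inr q)) fun i => v (Sum.inl (Sum.inl i)))
        fun l => v (Sum.inl (Sum.inr l)))) ?_
    refine ((PRQ.base hQ).comp (G := fun q k _ v => (Sum.elim
      (cz_AiQ (fun q => v (Sum.inr q)) fun i => v (Sum.inl (Sum.inl i)))
        fun l => v (Sum.inl (Sum.inr l)) : (Ix D ⊕ Ix D ⊕ Ix D) × Fin j ⊕ Fin j → k) q)
          ?_).congr fun k _ x => Iff.rfl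
    rintro (⟨i | i | i, l⟩ | l)
    · exact PRF.var (Sum.inr (Sum.inl i, l))
    · exact PRF.var (Sum.inr (Sum.inr i, l))
    · by_cases hl : (l : ℕ) = 0
      · exact (PRF.var (Sum.inl (Sum.inl i))).congr fun k _ x => if_pos hl
      · exact PRF.zero.congr fun k _ x => if_neg hl
    · exact PRF.var (Sum.inl (Sum.inr l))
  · constructor
    · rintro ⟨a, ha, w, hw⟩
      have : Fact (Irreducible (mn_AiQ a)) := ⟨ha⟩
      refine ⟨mn_AiQ a, ⟨ha⟩, mn_monic a, mn_deg a, w, ?_⟩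
      rw [hQ' k (mn_AiQ a) (mn_monic a) (mn_deg a) (cz_AiQ w x)]
      have e : (fun l : Fin j => (mn_AiQ a).coeff l) = a := funext fun l => mn_coeff a l
      rw [e]
      exact hw
    · rintro ⟨h, hh, hm, hd, w, hw⟩
      rw [hQ' k h hm hd (cz_AiQ w x)] at hw
      refine ⟨fun l => h.coeff l, ?_, w, hw⟩
      rw [mn_of hm hd]
      exact hh.out

theorem ai_prq (D : ℕ) : ∃ Q : FR (Ix D), PRQ Q ∧
    ∀ (p : ℕ) [Fact p.Prime] (x : Ix D → ZMod p),
      (Q (ZMod p) x ↔ Irreducible (bq (K := AlgebraicClosure (ZMod p))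
        fun i => algebraMap (ZMod p) (AlgebraicClosure (ZMod p)) (x i))) := by
  choose R hR hR' using fun j : Fin (2 * D) => deg_AiQ D (j + 1) (Nat.succ_pos _)
  have z0 : PRQ (ι := Ix D) (fun _ _ x => ∀ i, x i = 0) :=
    PRQ.allF fun i => PRQ.eq (PRF.var i) PRF.zero
  refine ⟨fun k _ x => ¬ (∀ i, x i = 0) ∧ (¬ IsUnit (bq x) ∧ ¬ ∃ j, R j k x),
    z0.not.and ((PRQ.base (nu_prd D)).and (PRQ.exF hR).not), fun p _ x => ?_⟩
  have hb : ∀ {L : Type} [Field L] (x : Ix D → L), bq x = 0 ↔ ∀ i, x i = 0 := by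
    intro L _ x
    have e : bq (fun _ : Ix D => (0 : L)) = 0 := by
      unfold bq
      simp
    constructor
    · intro h i
      rw [← e] at h
      exact congrFun (bq_inj h) i
    · intro h
      rw [← e]
      exact congrArg bq (funext h)
  have e1 := bq_map (algebraMap (ZMod p) (AlgebraicClosure (ZMod p))) x
  rw [← e1]
  have hw : ∀ (h : (ZMod p)[X]) {s : ℕ} (_ : 0 < s)
      (w : (Ix D ⊕ Ix D) × Fin s → ZMod p) (i : Ix D),
      ext h (fun l => cz_AiQ w x (Sum.inr (Sum.inr i), l)) = AdjoinRoot.of h (x i) := by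
    intro h s hs w i
    exact ext_of_AiQ hs h (x i)
  constructor
  · rintro ⟨h0, hu, hn⟩
    by_contra hr
    have h0' : bq x ≠ 0 := fun h => h0 ((hb x).1 h)
    obtain ⟨j, hj1, hj2, h, hm, hd, hi, G, H, hG, hH, hGH⟩ := red_ex (bq_bd x) h0' hu hr
    have : Fact (Irreducible h) := ⟨hi⟩
    obtain ⟨j, rfl⟩ := Nat.exists_eq_add_of_le' hj1
    rw [bq_map (AdjoinRoot.of h) x] at hGH
    have h1 : bq (fun i => AdjoinRoot.of h (x i)) ≠ 0 := by
      intro h2
      refine h0 fun i => ?_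
      have h3 := (hb (L := AdjoinRoot h) _).1 h2 i
      exact (map_eq_zero_iff _ (AdjoinRoot.of h).injective).1 h3
    obtain ⟨y, rfl⟩ := bq_surj (bd_left (K := AdjoinRoot h) hGH h1 (bq_bd _))
    obtain ⟨z, rfl⟩ := bq_surj (bd_left (K := AdjoinRoot h) ((mul_comm H _).trans hGH) h1
      (bq_bd _))
    choose y' hy' using fun i => ext_surj (s := j + 1) hm hd (y i)
    choose z' hz' using fun i => ext_surj (s := j + 1) hm hd (z i)
    refine hn ⟨⟨j, by omega⟩, (hR' _ (ZMod p) x).2 ⟨h, ⟨hi⟩, hm, hd,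
      fun q => Sum.elim (fun i => y' i q.2) (fun i => z' i q.2) q.1, ?_⟩⟩
    have ey : (fun i : Ix D => ext h fun l : Fin (j + 1) => y' i l) = y := funext hy'
    have ez : (fun i : Ix D => ext h fun l : Fin (j + 1) => z' i l) = z := funext hz'
    have ex : (fun i : Ix D => ext h fun l : Fin (j + 1) => if (l : ℕ) = 0 then x i else 0) =
        fun i => AdjoinRoot.of h (x i) := funext fun i => ext_of_AiQ (Nat.succ_pos j) h (x i)
    show (bq (fun i : Ix D => ext h fun l : Fin (j + 1) => y' i l) *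
      bq (fun i : Ix D => ext h fun l : Fin (j + 1) => z' i l) =
        bq (fun i : Ix D => ext h fun l : Fin (j + 1) => if (l : ℕ) = 0 then x i else 0)) ∧
      (¬ IsUnit (bq (fun i : Ix D => ext h fun l : Fin (j + 1) => y' i l)) ∧
        ¬ IsUnit (bq (fun i : Ix D => ext h fun l : Fin (j + 1) => z' i l)))
    rw [ey, ez, ex]
    exact ⟨hGH, hG, hH⟩
  · intro hr
    refine ⟨fun h0 => ?_, fun hu => ?_, ?_⟩
    · rw [(hb x).2 h0, Polynomial.map_zero] at hr
      exact not_irreducible_zero hr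
    · have h2 := hu.map (mapRingHom (mapRingHom
        (algebraMap (ZMod p) (AlgebraicClosure (ZMod p)))))
      exact hr.not_isUnit h2
    · rintro ⟨j, hj⟩
      obtain ⟨h, hi, hm, hd, w, hw1, hw2, hw3⟩ := (hR' j (ZMod p) x).1 hj
      have e2 : (fun i : Ix D => ext h fun l => cz_AiQ w x (Sum.inr (Sum.inr i), l)) =
          fun i => AdjoinRoot.of h (x i) := funext fun i => hw h (Nat.succ_pos _) w i
      refine red_of hi.out hw2 hw3 (hw1.trans ?_) hr
      rw [bq_map]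
      exact congrArg bq e2

theorem ai_def {D n : ℕ} {p : (Fin n → ℕ) → ℕ} {c : Fin (D + 1) → Fin (D + 1) → (Fin n → ℕ) → ℕ}
    (hp : DFun n p) (hc : ∀ i j, DFun n (c i j)) :
    Delta0 n (fun v => AI (p v) (fun i j => c i j v)) := by
  obtain ⟨Q, hQ, hQ'⟩ := ai_prq D
  have h := prq_delta hQ (a := fun i v => c i.1 i.2 v) hp fun i => hc i.1 i.2
  refine h.of_iff fun v => exists_congr fun hv => ?_
  have := Fact.mk hv
  rw [hQ' (p v)]
  unfold bp
  simp only [map_natCast]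

end Pool.Agent.CvD
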