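import Pool.Agent.CvD.Bq

/-!
# Package CvD-Bez: coprime polynomials have few common zeros

Complete proof. Let `F, G` be relatively prime with degrees at most `D` in both unknowns.

* In `K(X)[Y]` they are coprime: a common divisor of positive degree in `Y` would give, by Gauss, a
  common primitive divisor in `K[X][Y]` (`Polynomial.IsPrimitive.dvd_iff_fraction_map_dvd_fraction_map`
  or similar; take the primitive part of a common divisor with cleared denominators; `F`, `G` are
  not both `0`, unless `D`-trivial: `0` and `G` relatively prime means that `G` is a unit, no common zeros).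
* So the resultant `R ∈ K[X]` is not `0` (`Polynomial.resultant_map_map`, `resultant_ne_zero`,
  `resultant_eq_zero_iff`), and `A F + B G = C R` (`Polynomial.exists_mul_add_mul_eq_C_resultant`; if
  both have degree `0` in `Y` then `R = 1`, and `F, G ∈ K[X]` are coprime, no common zeros). It is a
  determinant of size at most `2 D` with entries of degree at most `D`, so `deg R ≤ 2 D ^ 2`
  (`Matrix.det_apply`, `natDegree_sum_le_of_forall_le`, `natDegree_prod_le`).
* The first coordinate of a common zero is a root of `R`: at most `2 D ^ 2` values. For each `x`, one of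
  `F(x, Y)`, `G(x, Y)` is not `0` (otherwise `X - x` divides both), so there are at most `D` values of the
  second coordinate. `B = 2 D ^ 3`.
-/

set_option autoImplicit false

namespace Pool.Agent.CvD

open Finset Polynomial
open scoped Polynomial.Bivariate

section

variable {K : Type} [Field K]

private theorem res_ne_Bez {F G : K[X][Y]} (hF : F ≠ 0) (h : IsRelPrime F G) :
    resultant F G F.natDegree G.natDegree ≠ 0 := by
  intro h0
  unfold resultant at h0
  rw [← toMatrix_sylvesterMap' F G le_rfl le_rfl] at h0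
  obtain ⟨v, hv, hv0⟩ := Matrix.exists_mulVec_eq_zero_iff.2 h0
  set b₁ := ((degreeLT.basis K[X] F.natDegree).prod
    (degreeLT.basis K[X] G.natDegree)).reindex finSumFinEquiv with hb₁
  obtain ⟨x, rfl⟩ := b₁.equivFun.surjective v
  have hx : x ≠ 0 := by
    rintro rfl
    exact hv (map_zero _)
  have h1 : b₁.equivFun x = ⇑(b₁.repr x) := rfl
  rw [h1, LinearMap.toMatrix_mulVec_repr] at hv0
  have h2 : sylvesterMap F G le_rfl le_rfl x = 0 := by
    have h3 : (degreeLT.basis K[X] (F.natDegree + G.natDegree)).repr
        (sylvesterMap F G le_rfl le_rfl x) = 0 := by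
      exact Finsupp.ext fun i => congrFun hv0 i
    exact (LinearEquiv.map_eq_zero_iff _).1 h3
  have h4 : F * x.2.1 + G * x.1.1 = 0 := congrArg Subtype.val h2
  have h5 : F ∣ G * x.1.1 := by
    rw [← neg_eq_iff_add_eq_zero.2 h4]
    exact (Dvd.intro _ rfl).neg_right
  have h6 : F ∣ x.1.1 := h.dvd_of_dvd_mul_left h5
  have h7 : x.1.1 = 0 := by
    by_contra hne
    have h8 := natDegree_le_of_dvd h6 hne
    have h9 := x.1.2
    rw [mem_degreeLT, degree_eq_natDegree hne] at h9
    have := Nat.cast_lt.1 h9
    omega
  have h10 : x.2.1 = 0 := by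
    rw [h7, mul_zero, add_zero] at h4
    exact (mul_eq_zero.1 h4).resolve_left hF
  exact hx (Prod.ext (Subtype.ext h7) (Subtype.ext h10))

private theorem det_deg_Bez {n D : ℕ} (A : Matrix (Fin n) (Fin n) K[X])
    (h : ∀ i j, (A i j).natDegree ≤ D) : A.det.natDegree ≤ n * D := by
  rw [Matrix.det_apply']
  refine natDegree_sum_le_of_forall_le _ _ fun σ _ => ?_
  refine (natDegree_mul_le).trans ?_
  rw [natDegree_intCast, zero_add]
  refine (natDegree_prod_le _ _).trans ?_
  refine (Finset.sum_le_card_nsmul _ _ D fun i _ => h _ _).trans ?_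
  rw [card_univ, Fintype.card_fin, smul_eq_mul]

private theorem res_deg_Bez {D m n : ℕ} {F G : K[X][Y]} (hF : Bd D F) (hG : Bd D G) :
    (resultant F G m n).natDegree ≤ (m + n) * D := by
  refine det_deg_Bez _ fun i j => ?_
  unfold sylvester
  rw [Matrix.of_apply]
  refine Fin.addCases (fun j₁ => ?_) (fun j₁ => ?_) j
  · rw [Fin.addCases_left]
    split_ifs
    · exact hG.2 _
    · simp
  · rw [Fin.addCases_right]
    split_ifs
    · exact hF.2 _
    · simp

private theorem fib_Bez {F G : K[X][Y]} (h : IsRelPrime F G) (x : K) :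
    F.map (evalRingHom x) ≠ 0 ∨ G.map (evalRingHom x) ≠ 0 := by
  by_contra hcon
  push Not at hcon
  have key : ∀ H : K[X][Y], H.map (evalRingHom x) = 0 → C (X - C x) ∣ H := by
    intro H hH
    rw [C_dvd_iff_dvd_coeff]
    intro i
    rw [dvd_iff_isRoot]
    have := congrArg (fun P => P.coeff i) hH
    simpa [coeff_map] using this
  have hu := h (key F hcon.1) (key G hcon.2)
  rw [isUnit_C] at hu
  exact (not_isUnit_X_sub_C x) hu

end

theorem bez (D : ℕ) : ∃ B : ℕ, ∀ (K : Type) [Field K] (F G : K[X][Y]), Bd D F → Bd D G →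
    IsRelPrime F G → ∀ S : Finset (K × K),
      (∀ z ∈ S, F.evalEval z.1 z.2 = 0 ∧ G.evalEval z.1 z.2 = 0) → #S ≤ B := by
  classical
  refine ⟨D * ((D + D) * D), ?_⟩
  intro K _ F G hF hG h S hS
  -- a unit has no zeros
  have hun : ∀ H : K[X][Y], IsUnit H → ∀ x y, H.evalEval x y ≠ 0 := by
    intro H hH x y h0
    have := hH.map (evalEvalRingHom x y)
    rw [show evalEvalRingHom x y H = H.evalEval x y from rfl, h0] at this
    exact not_isUnit_zero this
  by_cases hF0 : F = 0
  · rw [Finset.card_eq_zero.2]
    · exact Nat.zero_le _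
    · rw [Finset.eq_empty_iff_forall_notMem]
      intro z hz
      have hu : IsUnit G := h (by rw [hF0]; exact dvd_zero _) dvd_rfl
      exact hun G hu _ _ (hS z hz).2
  by_cases hG0 : G = 0
  · rw [Finset.card_eq_zero.2]
    · exact Nat.zero_le _
    · rw [Finset.eq_empty_iff_forall_notMem]
      intro z hz
      have hu : IsUnit F := h dvd_rfl (by rw [hG0]; exact dvd_zero _)
      exact hun F hu _ _ (hS z hz).1
  by_cases hmn : F.natDegree ≠ 0 ∨ G.natDegree ≠ 0
  swap
  · push Not at hmn
    rw [Finset.card_eq_zero.2]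
    · exact Nat.zero_le _
    · rw [Finset.eq_empty_iff_forall_notMem]
      intro z hz
      have key : ∀ H : K[X][Y], H.natDegree = 0 → H.evalEval z.1 z.2 = 0 →
          H.map (evalRingHom z.1) = 0 := by
        intro H hH h0
        obtain ⟨f, rfl⟩ := natDegree_eq_zero.1 hH
        rw [evalEval_C] at h0
        rw [map_C, coe_evalRingHom, h0, C_0]
      rcases fib_Bez h z.1 with h1 | h1
      · exact h1 (key F hmn.1 (hS z hz).1)
      · exact h1 (key G hmn.2 (hS z hz).2)
  obtain ⟨p, q, -, -, hpq⟩ := exists_mul_add_mul_eq_C_resultant F G le_rfl le_rfl hmn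
  set R := resultant F G F.natDegree G.natDegree with hR
  have hR0 : R ≠ 0 := res_ne_Bez hF0 h
  have hRd : R.natDegree ≤ (D + D) * D :=
    (res_deg_Bez hF hG).trans (Nat.mul_le_mul_right _ (add_le_add hF.1 hG.1))
  have hroot : ∀ z ∈ S, z.1 ∈ R.roots.toFinset := by
    intro z hz
    rw [Multiset.mem_toFinset, mem_roots hR0, IsRoot.def, ← evalEval_C z.1 z.2 R, ← hpq,
      evalEval_add, evalEval_mul, evalEval_mul, (hS z hz).1, (hS z hz).2, zero_mul, zero_mul,
      add_zero]
  have hfib : ∀ x ∈ R.roots.toFinset, #{z ∈ S | z.1 = x} ≤ D := by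
    intro x _
    have key : ∀ H : K[X][Y], Bd D H → (∀ z ∈ S, H.evalEval z.1 z.2 = 0) →
        H.map (evalRingHom x) ≠ 0 → #{z ∈ S | z.1 = x} ≤ D := by
      intro H hH hz0 hne
      have hc : #(H.map (evalRingHom x)).roots.toFinset ≤ D :=
        (Multiset.toFinset_card_le _).trans ((card_roots' _).trans
          ((natDegree_map_le).trans hH.1))
      refine le_trans ?_ hc
      refine Finset.card_le_card_of_injOn (fun z => z.2) ?_ ?_
      · intro z hz
        have hz' := Finset.mem_filter.1 (Finset.mem_coe.1 hz)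
        rw [Finset.mem_coe, Multiset.mem_toFinset, mem_roots hne, IsRoot.def,
          map_evalRingHom_eval, ← hz'.2]
        exact hz0 z hz'.1
      · intro z hz z' hz' he
        have h1 := (Finset.mem_filter.1 (Finset.mem_coe.1 hz)).2
        have h2 := (Finset.mem_filter.1 (Finset.mem_coe.1 hz')).2
        exact Prod.ext (h1.trans h2.symm) he
    rcases fib_Bez h x with h1 | h1
    · exact key F hF (fun z hz => (hS z hz).1) h1
    · exact key G hG (fun z hz => (hS z hz).2) h1
  refine (Finset.card_le_mul_card_image_of_maps_to hroot D hfib).trans ?_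
  refine Nat.mul_le_mul_left _ ?_
  exact (Multiset.toFinset_card_le _).trans ((card_roots' _).trans hRd)

end Pool.Agent.CvD
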