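import Pool.Agent.CvD.Defs

/-!
# Package CvD-Bq: polynomials in two unknowns of bounded degree

Complete proofs.

* `bq_coeff`: `finsetSum_coeff`, `coeff_C_mul`, `coeff_X_pow`. `bq_bd`, `bq_inj` follow; `bq_surj`: take
  `x (i, j) = (F.coeff j).coeff i`. `bq_map`, `bq_eval`: `map_sum`, `eval` of a sum.
* `unit_iff`: `Polynomial.isUnit_iff` twice.
* `dX_le`: `Finset.sup_le_iff`; for `j` not in the support the coefficient is `0`.
* `dX_mul`: the degree in `X` is the degree in the outer variable after `Polynomial.Bivariate.swap`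
  (a ring isomorphism), or: compare the coefficients of `X ^ (dX F + dX G)`: with
  `F_top = ∑_j (coefficient of X ^ (dX F) in F.coeff j) Y ^ j ∈ K[Y]`, not `0`, the coefficient for the
  product is `F_top G_top`.
* `nonunit_pos`: if both degrees are `0` then `F = C (C a)`.
* `bd_left`: `natDegree_mul` and `dX_mul`.
-/

set_option autoImplicit false

noncomputable section

namespace Pool.Agent.CvD

open Finset Polynomial
open scoped Polynomial.Bivariate

/-- the degree in `X` -/
def dX {K : Type} [CommRing K] (F : K[X][Y]) : ℕ := F.support.sup fun j => (F.coeff j).natDegree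

section ring

variable {K : Type} [CommRing K] {D : ℕ}

theorem bq_coeff (x : Fin (D + 1) × Fin (D + 1) → K) (i j : ℕ) : ((bq x).coeff j).coeff i =
    if h : i < D + 1 ∧ j < D + 1 then x (⟨i, h.1⟩, ⟨j, h.2⟩) else 0 := by
  unfold bq
  simp only [finsetSum_coeff, coeff_C_mul, coeff_X_pow, mul_ite, mul_one, mul_zero]
  by_cases h : i < D + 1 ∧ j < D + 1
  · rw [dif_pos h, Finset.sum_eq_single ⟨i, h.1⟩, Finset.sum_eq_single ⟨j, h.2⟩]
    · simp
    · intro b _ hb
      have hb' : j ≠ (b : ℕ) := fun e => hb (Fin.ext e.symm)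
      simp [hb']
    · intro hn
      exact absurd (Finset.mem_univ _) hn
    · intro b _ hb
      have hb' : i ≠ (b : ℕ) := fun e => hb (Fin.ext e.symm)
      refine Finset.sum_eq_zero fun c _ => ?_
      by_cases hc : j = (c : ℕ)
      · simp [hc, coeff_X_pow, hb']
      · simp [hc]
    · intro hn
      exact absurd (Finset.mem_univ _) hn
  · rw [dif_neg h]
    refine Finset.sum_eq_zero fun b _ => Finset.sum_eq_zero fun c _ => ?_
    by_cases hc : j = (c : ℕ)
    · by_cases hb : i = (b : ℕ)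
      · exact absurd ⟨hb ▸ b.2, hc ▸ c.2⟩ h
      · simp [hc, coeff_X_pow, hb]
    · simp [hc]

theorem bq_bd (x : Fin (D + 1) × Fin (D + 1) → K) : Bd D (bq x) := by
  refine ⟨natDegree_le_iff_coeff_eq_zero.2 fun N hN => ?_, fun j =>
    natDegree_le_iff_coeff_eq_zero.2 fun N hN => ?_⟩
  · ext i
    rw [bq_coeff, dif_neg (fun h => by omega), coeff_zero]
  · rw [bq_coeff, dif_neg (fun h => by omega)]

theorem bq_inj {x y : Fin (D + 1) × Fin (D + 1) → K} (h : bq x = bq y) : x = y := by
  ext ⟨i, j⟩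
  have h1 : ((bq x).coeff j).coeff i = ((bq y).coeff j).coeff i := by rw [h]
  rw [bq_coeff, bq_coeff, dif_pos ⟨i.2, j.2⟩, dif_pos ⟨i.2, j.2⟩] at h1
  exact h1

theorem bq_surj {F : K[X][Y]} (hF : Bd D F) : ∃ x : Fin (D + 1) × Fin (D + 1) → K, bq x = F := by
  refine ⟨fun z => (F.coeff z.2).coeff z.1, ?_⟩
  ext j i
  rw [bq_coeff]
  split_ifs with h
  · rfl
  · by_cases hj : j < D + 1
    · have hi : D < i := by
        by_contra hc
        exact h ⟨by omega, hj⟩
      exact (coeff_eq_zero_of_natDegree_lt (lt_of_le_of_lt (hF.2 j) hi)).symm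
    · have hj' : F.coeff j = 0 :=
        coeff_eq_zero_of_natDegree_lt (lt_of_le_of_lt hF.1 (by omega))
      rw [hj', coeff_zero]

theorem bq_map {L : Type} [CommRing L] (f : K →+* L) (x : Fin (D + 1) × Fin (D + 1) → K) :
    (bq x).map (mapRingHom f) = bq (fun i => f (x i)) := by
  simp [bq, Polynomial.map_sum]

theorem bq_eval (x : Fin (D + 1) × Fin (D + 1) → K) (a b : K) :
    (bq x).evalEval a b = ∑ i, ∑ j, x (i, j) * a ^ (i : ℕ) * b ^ (j : ℕ) := by
  simp only [bq, evalEval_finsetSum, evalEval_mul, evalEval_C, eval_mul, eval_C, eval_pow, eval_X,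
    evalEval_pow, evalEval_X]

theorem dX_le {F : K[X][Y]} {a : ℕ} : dX F ≤ a ↔ ∀ j, (F.coeff j).natDegree ≤ a := by
  unfold dX
  rw [Finset.sup_le_iff]
  refine ⟨fun h j => ?_, fun h j _ => h j⟩
  by_cases hj : j ∈ F.support
  · exact h j hj
  · rw [notMem_support_iff.1 hj, natDegree_zero]
    exact Nat.zero_le a

end ring

section field

variable {K : Type} [Field K] {D : ℕ}

theorem unit_iff (F : K[X][Y]) : IsUnit F ↔ ∃ a : K, a ≠ 0 ∧ F = C (C a) := by
  rw [Polynomial.isUnit_iff]
  constructor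
  · rintro ⟨r, hr, rfl⟩
    obtain ⟨a, ha, rfl⟩ := Polynomial.isUnit_iff.1 hr
    exact ⟨a, ha.ne_zero, rfl⟩
  · rintro ⟨a, ha, rfl⟩
    exact ⟨C a, Polynomial.isUnit_C.2 (isUnit_iff_ne_zero.2 ha), rfl⟩

private theorem swap_coeff (F : K[X][Y]) (i j : ℕ) :
    ((Bivariate.swap F).coeff i).coeff j = (F.coeff j).coeff i := by
  induction F using Polynomial.induction_on' with
  | add p q hp hq => rw [map_add, coeff_add, coeff_add, coeff_add, coeff_add, hp, hq]
  | monomial n f =>
    induction f using Polynomial.induction_on' with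
    | add p q hp hq =>
      rw [map_add, map_add, coeff_add, coeff_add, coeff_add, coeff_add, hp, hq]
    | monomial m r =>
      rw [Bivariate.swap_monomial_monomial]
      simp only [coeff_monomial]
      by_cases h1 : m = i <;> by_cases h2 : n = j <;> simp [h1, h2, coeff_monomial]

private theorem dX_eq_swap (F : K[X][Y]) : dX F = (Bivariate.swap F).natDegree := by
  apply le_antisymm
  · rw [dX_le]
    intro j
    rw [natDegree_le_iff_coeff_eq_zero]
    intro N hN
    rw [← swap_coeff, coeff_eq_zero_of_natDegree_lt hN, coeff_zero]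
  · rw [natDegree_le_iff_coeff_eq_zero]
    intro N hN
    ext j
    rw [swap_coeff, coeff_zero]
    exact coeff_eq_zero_of_natDegree_lt (lt_of_le_of_lt (dX_le.1 le_rfl j) hN)

theorem dX_mul {F G : K[X][Y]} (hF : F ≠ 0) (hG : G ≠ 0) : dX (F * G) = dX F + dX G := by
  rw [dX_eq_swap, dX_eq_swap, dX_eq_swap, map_mul]
  exact natDegree_mul ((map_ne_zero_iff _ (AlgEquiv.injective _)).2 hF)
    ((map_ne_zero_iff _ (AlgEquiv.injective _)).2 hG)

theorem nonunit_pos {F : K[X][Y]} (h0 : F ≠ 0) (hu : ¬ IsUnit F) :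
    1 ≤ dX F + F.natDegree := by
  by_contra hc
  have h1 : F.natDegree = 0 := by omega
  have h2 : dX F ≤ 0 := by omega
  have h3 : (F.coeff 0).natDegree = 0 := Nat.le_zero.1 (dX_le.1 h2 0)
  have h4 : F = C (C ((F.coeff 0).coeff 0)) := by
    rw [← eq_C_of_natDegree_eq_zero h3]
    exact eq_C_of_natDegree_eq_zero h1
  refine hu ((unit_iff F).2 ⟨_, fun h5 => h0 ?_, h4⟩)
  rw [h4, h5, C_0, C_0]

theorem bd_left {F G H : K[X][Y]} (h : G * H = F) (h0 : F ≠ 0) (hF : Bd D F) : Bd D G := by
  subst h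
  have hG : G ≠ 0 := left_ne_zero_of_mul h0
  have hH : H ≠ 0 := right_ne_zero_of_mul h0
  refine ⟨?_, dX_le.1 ?_⟩
  · have h1 := hF.1
    rw [natDegree_mul hG hH] at h1
    omega
  · have h1 : dX (G * H) ≤ D := dX_le.2 hF.2
    rw [dX_mul hG hH] at h1
    omega

end field

end Pool.Agent.CvD
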