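import Pool.Agent.CvD.Bez

/-!
# Package CvD-Conj: irreducible, but not absolutely irreducible polynomials have few points

Complete proof. `K` is the algebraic closure of `ZMod p`, `F' ∈ K[X][Y]` the image of `F`, `Φ` the ring
automorphism of `K[X][Y]` given by the Frobenius map on the coefficients. `F'` is not `0` and not a unit
(the units are the nonzero constants), and not irreducible.

* Let `P` be a point of `F` over `ZMod p`. Some irreducible factor `G` of `F'` vanishes at `P`. `Φ G` is
  irreducible, divides `Φ F' = F'` and vanishes at `P` (the coordinates of `P` are fixed by Frobenius).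
  Suppose that `Φ G` is associated to `G`. Divide `G` by one of its nonzero coefficients: then
  `Φ G = u G` with `u` a constant, and `u = 1` as the coefficient `1` is fixed. So the coefficients of `G` are
  fixed by Frobenius, hence in `ZMod p` (`x ^ p = x` has exactly the `p` solutions in `ZMod p`). Let
  `F' = G H`; then `Φ H = H`, so `H` has coefficients in `ZMod p` too, and `F = G₀ H₀` over `ZMod p` with
  `G₀` not a unit; `F` is irreducible, so `H₀` is a unit, and `F'` is associated to `G`, irreducible: a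
  contradiction. So `G` and `Φ G` are not associated primes, `G * Φ G` divides `F'`, and
  the derivative of `F'` with respect to `Y` vanishes at `P`: `F` and `derivative F` vanish at `P`.
* `1 ≤ natDegree F` (degree in `Y`): `derivative F ≠ 0` since `natDegree F ≤ D < p`, and `F` does not
  divide it (degree), so they are relatively prime (`F` irreducible): `bez D`.
* `natDegree F = 0`: `F = C f` with `f` irreducible. A root `a` of `f` would give that `f` is associated to
  `X - a`, and `F'` to `C (X - a)`, which is irreducible in `K[X][Y]`: a contradiction. So there is no point.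
-/

set_option autoImplicit false

namespace Pool.Agent.CvD

open Finset Polynomial
open scoped Polynomial.Bivariate

private theorem mapEquiv_two {K : Type} [Field K] (φ : K ≃+* K) (G : K[X][Y]) :
    mapEquiv (mapEquiv φ) G = G.map (mapRingHom (φ : K →+* K)) := rfl

private theorem fix_lifts {k K : Type} [Field k] [Field K] (ι : k →+* K) (φ : K ≃+* K)
    (hfix : ∀ x, φ x = x → ∃ a, ι a = x) (G : K[X][Y])
    (h : G.map (mapRingHom (φ : K →+* K)) = G) : ∃ G₀ : k[X][Y], G₀.map (mapRingHom ι) = G := by
  have h1 : ∀ i j, φ ((G.coeff j).coeff i) = (G.coeff j).coeff i := by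
    intro i j
    have h2 := congrArg (fun H : K[X][Y] => (H.coeff j).coeff i) h
    simpa using h2
  have h3 : ∀ j, ∃ g : k[X], g.map ι = G.coeff j := by
    intro j
    have h4 : G.coeff j ∈ lifts ι := by
      rw [lifts_iff_coeff_lifts]
      intro i
      exact hfix _ (h1 i j)
    exact (mem_lifts _).1 h4
  have h5 : G ∈ lifts (mapRingHom ι) := by
    rw [lifts_iff_coeff_lifts]
    intro j
    exact h3 j
  exact (mem_lifts _).1 h5

private theorem der_zero {k K : Type} [Field k] [Field K] (ι : k →+* K) (φ : K ≃+* K)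
    (hφ : ∀ a, φ (ι a) = ι a) (hfix : ∀ x, φ x = x → ∃ a, ι a = x) (F : k[X][Y])
    (hF : Irreducible F) (hn : ¬ Irreducible (F.map (mapRingHom ι))) (a b : k)
    (h : F.evalEval a b = 0) : (derivative F).evalEval a b = 0 := by
  classical
  set F' : K[X][Y] := F.map (mapRingHom ι) with hF'
  set Φ : K[X][Y] ≃+* K[X][Y] := mapEquiv (mapEquiv φ) with hΦ
  have hΦa : ∀ G, Φ G = G.map (mapRingHom (φ : K →+* K)) := fun G => mapEquiv_two φ G
  have hinj : Function.Injective (fun G : k[X][Y] => G.map (mapRingHom ι)) :=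
    map_injective _ (map_injective _ ι.injective)
  have hF0 : F' ≠ 0 := by
    intro h0
    exact hF.ne_zero (hinj (by simpa [hF'] using h0))
  have hcomp : (mapRingHom (φ : K →+* K)).comp (mapRingHom ι) = mapRingHom ι := by
    rw [mapRingHom_comp]
    congr 1
    ext x
    simp [hφ]
  have hΦF : Φ F' = F' := by
    rw [hΦa, hF', Polynomial.map_map, hcomp]
  have hev : ∀ G : K[X][Y], (Φ G).evalEval (ι a) (ι b) = φ (G.evalEval (ι a) (ι b)) := by
    intro G
    have := map_mapRingHom_evalEval (φ : K →+* K) G (ι a) (ι b)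
    rw [hΦa]
    simpa [hφ] using this
  have hF'0 : F'.evalEval (ι a) (ι b) = 0 := by
    rw [hF', map_mapRingHom_evalEval, h, map_zero]
  -- an irreducible factor which vanishes at the point
  obtain ⟨G, hGirr, hGdvd, hG0⟩ : ∃ G : K[X][Y], Irreducible G ∧ G ∣ F' ∧
      G.evalEval (ι a) (ι b) = 0 := by
    obtain ⟨f, hf1, hf2⟩ := WfDvdMonoid.exists_factors F' hF0
    obtain ⟨u, hu⟩ := hf2
    have h1 : (f.prod).evalEval (ι a) (ι b) = 0 := by
      have h2 : (f.prod * u).evalEval (ι a) (ι b) = 0 := by rw [hu, hF'0]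
      rw [evalEval_mul] at h2
      rcases mul_eq_zero.1 h2 with h3 | h3
      · exact h3
      · exfalso
        have h4 : IsUnit ((u : K[X][Y]).evalEval (ι a) (ι b)) := by
          have := (u.isUnit).map (evalEvalRingHom (ι a) (ι b))
          simpa using this
        rw [h3] at h4
        exact not_isUnit_zero h4
    rw [evalEval_multiset_prod, Multiset.prod_eq_zero_iff, Multiset.mem_map] at h1
    obtain ⟨G, hG, hG2⟩ := h1
    exact ⟨G, hf1 G hG, (Multiset.dvd_prod hG).trans ⟨u, hu.symm⟩, hG2⟩
  have hΦirr : Irreducible (Φ G) := (MulEquiv.irreducible_iff Φ).2 hGirr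
  have hΦdvd : Φ G ∣ F' := by
    have := map_dvd Φ hGdvd
    rwa [hΦF] at this
  have hΦ0 : (Φ G).evalEval (ι a) (ι b) = 0 := by rw [hev, hG0, map_zero]
  -- `Φ G` is not associated to `G`
  have hnot : ¬ G ∣ F' ∨ ¬ (Φ G ∣ G) := by
    right
    intro hass
    have hass2 : Associated (Φ G) G := hΦirr.associated_of_dvd hGirr hass
    obtain ⟨u, hu⟩ := hass2.symm
    obtain ⟨c, hc0, hc⟩ := (unit_iff (u : K[X][Y])).1 u.isUnit
    have hG' : ∃ i j, (G.coeff j).coeff i ≠ 0 := by
      by_contra hcon
      push Not at hcon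
      exact hGirr.ne_zero (by ext j i; simp [hcon])
    obtain ⟨i, j, hg⟩ := hG'
    set g : K := (G.coeff j).coeff i with hgdef
    set G₁ : K[X][Y] := C (C g⁻¹) * G with hG₁
    have hG₁c : (G₁.coeff j).coeff i = 1 := by
      simp [hG₁, ← hgdef, hg]
    have h1 : Φ G₁ = C (C (φ g⁻¹ * c * g)) * G₁ := by
      have h2 : Φ G₁ = C (C (φ g⁻¹)) * Φ G := by
        rw [hG₁, map_mul]
        congr 1
        rw [hΦa]
        simp
      rw [h2, ← hu, hc, hG₁]
      simp only [map_mul]
      have h3 : (C (C g) : K[X][Y]) * C (C g⁻¹) = 1 := by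
        rw [← map_mul, ← map_mul, mul_inv_cancel₀ hg, map_one, map_one]
      linear_combination (-(C (C (φ g⁻¹)) * C (C c) * G : K[X][Y])) * h3
    have h2 : φ g⁻¹ * c * g = 1 := by
      have h3 := congrArg (fun H : K[X][Y] => (H.coeff j).coeff i) h1
      simp only [hΦa, coeff_map, coe_mapRingHom, hG₁c, coeff_C_mul] at h3
      simpa using h3.symm
    rw [h2, map_one, map_one, one_mul, hΦa] at h1
    obtain ⟨G₀, hG₀⟩ := fix_lifts ι φ hfix G₁ h1
    have hunit : IsUnit (C (C g⁻¹) : K[X][Y]) :=
      (unit_iff _).2 ⟨g⁻¹, inv_ne_zero hg, rfl⟩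
    have hG₁dvd : G₁ ∣ F' := (hunit.mul_left_dvd).2 hGdvd
    obtain ⟨H, hH⟩ := hG₁dvd
    have hG₁0 : G₁ ≠ 0 := by
      intro h0
      rw [h0] at hG₁c
      simp at hG₁c
    have hHfix : H.map (mapRingHom (φ : K →+* K)) = H := by
      have h3 : Φ F' = Φ G₁ * Φ H := by rw [hH, map_mul]
      rw [hΦF, hΦa, h1, hΦa, hH] at h3
      exact (mul_left_cancel₀ hG₁0 h3).symm
    obtain ⟨H₀, hH₀⟩ := fix_lifts ι φ hfix H hHfix
    have hFG : F = G₀ * H₀ := by
      apply hinj
      simp only [Polynomial.map_mul, hG₀, hH₀]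
      exact hH
    rcases hF.isUnit_or_isUnit hFG with h4 | h4
    · have h5 : IsUnit G₁ := by
        rw [← hG₀]
        exact h4.map (mapRingHom (mapRingHom ι))
      exact hGirr.not_isUnit (isUnit_of_mul_isUnit_right h5)
    · have h5 : IsUnit H := by
        rw [← hH₀]
        exact h4.map (mapRingHom (mapRingHom ι))
      apply hn
      rw [hH]
      exact (irreducible_mul_isUnit h5).2 ((irreducible_isUnit_mul hunit).2 hGirr)
  have hnot2 : ¬ (Φ G ∣ G) := hnot.resolve_left (not_not.2 hGdvd)
  obtain ⟨H, hH⟩ := hGdvd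
  have hprime : Prime (Φ G) := hΦirr.prime
  have hdvd : Φ G ∣ H := by
    rw [hH] at hΦdvd
    exact (hprime.dvd_or_dvd hΦdvd).resolve_left hnot2
  obtain ⟨H₂, hH₂⟩ := hdvd
  have hder : (derivative F').evalEval (ι a) (ι b) = 0 := by
    rw [hH, hH₂, derivative_mul, evalEval_add, evalEval_mul, evalEval_mul, evalEval_mul, hG0, hΦ0]
    simp
  have h9 : ι ((derivative F).evalEval a b) = 0 := by
    rw [← map_mapRingHom_evalEval, ← derivative_map]
    exact hder
  exact (map_eq_zero ι).1 h9

theorem conj (D : ℕ) : ∃ B : ℕ, ∀ (p : ℕ) [Fact p.Prime], D < p → ∀ F : (ZMod p)[X][Y], Bd D F →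
    Irreducible F → ¬ Irreducible
      (F.map (mapRingHom (algebraMap (ZMod p) (AlgebraicClosure (ZMod p))))) →
    ∀ S : Finset (ZMod p × ZMod p), (∀ z ∈ S, F.evalEval z.1 z.2 = 0) → #S ≤ B := by
  obtain ⟨B, hB⟩ := bez D
  refine ⟨B, fun p hp hDp F hBd hF hn S hS => ?_⟩
  set K := AlgebraicClosure (ZMod p) with hK
  set ι : ZMod p →+* K := algebraMap (ZMod p) K with hι
  have hφ : ∀ a : ZMod p, frobeniusEquiv K p (ι a) = ι a := by
    intro a
    rw [frobeniusEquiv_def, ← map_pow, ZMod.pow_card]
  have hfix : ∀ x : K, frobeniusEquiv K p x = x → ∃ a, ι a = x := by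
    intro x hx
    rw [frobeniusEquiv_def] at hx
    have h1 : x ∈ (⊥ : Subfield K) := (Subfield.mem_bot_iff_pow_eq_self (F := K) (p := p)).2 hx
    rw [← ZMod.fieldRange_castHom_eq_bot p] at h1
    obtain ⟨a, ha⟩ := h1
    refine ⟨a, ?_⟩
    rw [← ha]
    exact congrArg (fun f : ZMod p →+* K => f a) (Subsingleton.elim _ _)
  rcases Nat.eq_zero_or_pos F.natDegree with h0 | h0
  · -- `F = C f`
    have hSe : S = ∅ := by
      rw [Finset.eq_empty_iff_forall_notMem]
      intro z hz
      obtain ⟨f, hf⟩ : ∃ f, F = C f := ⟨_, eq_C_of_natDegree_eq_zero h0⟩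
      have hz0 := hS z hz
      rw [hf, evalEval, eval_C] at hz0
      have hfirr : Irreducible f := by
        have h1 : Prime (C f : (ZMod p)[X][Y]) := by rw [← hf]; exact hF.prime
        exact ((prime_C_iff (R := (ZMod p)[X])).1 h1).irreducible
      have hdvd : X - C z.1 ∣ f := dvd_iff_isRoot.2 hz0
      have hass : Associated (X - C z.1) f :=
        (irreducible_X_sub_C z.1).associated_of_dvd hfirr hdvd
      apply hn
      rw [hf, map_C]
      have h2 : Associated (X - C (ι z.1)) (f.map ι) := by
        have := hass.map (mapRingHom ι)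
        simpa using this
      have h3 : Prime (f.map ι) := h2.prime (prime_X_sub_C _)
      exact ((prime_C_iff (R := K[X])).2 h3).irreducible
    rw [hSe]
    simp
  · -- the derivative
    have hnat : F.natDegree ≤ D := hBd.1
    have hd0 : derivative F ≠ 0 := by
      intro hcon
      have h1 := congrArg (fun H : (ZMod p)[X][Y] => H.coeff (F.natDegree - 1)) hcon
      simp only [coeff_derivative, coeff_zero] at h1
      have h2 : F.natDegree - 1 + 1 = F.natDegree := Nat.sub_add_cancel h0
      rw [h2] at h1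
      rcases mul_eq_zero.1 h1 with h3 | h3
      · exact hF.ne_zero (leadingCoeff_eq_zero.1 h3)
      · have h4 : ((F.natDegree : ℕ) : (ZMod p)[X]) = 0 := by
          have : ((F.natDegree - 1 : ℕ) : (ZMod p)[X]) + 1 = ((F.natDegree - 1 + 1 : ℕ) :
              (ZMod p)[X]) := by push_cast; ring
          rw [this, h2] at h3
          exact h3
        have h5 : ((F.natDegree : ℕ) : ZMod p) = 0 := by
          have := congrArg (fun q : (ZMod p)[X] => q.eval 0) h4
          simpa using this
        rw [ZMod.natCast_eq_zero_iff] at h5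
        have := Nat.le_of_dvd h0 h5
        omega
    have hlt : (derivative F).natDegree < F.natDegree := natDegree_derivative_lt (by omega)
    have hBd2 : Bd D (derivative F) := by
      refine ⟨by omega, fun j => ?_⟩
      rw [coeff_derivative]
      have h1 : ((F.coeff (j + 1)) * ((j : (ZMod p)[X]) + 1)).natDegree ≤
          (F.coeff (j + 1)).natDegree := by
        have h2 : ((j : (ZMod p)[X]) + 1) = C ((j : ZMod p) + 1) := by simp
        rw [h2]
        exact natDegree_mul_C_le _ _
      exact h1.trans (hBd.2 _)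
    have hrel : IsRelPrime F (derivative F) := by
      rw [hF.isRelPrime_iff_not_dvd]
      intro hdvd
      have := natDegree_le_of_dvd hdvd hd0
      omega
    refine hB (ZMod p) F (derivative F) hBd hBd2 hrel S fun z hz => ⟨hS z hz, ?_⟩
    exact der_zero ι (frobeniusEquiv K p) hφ hfix F hF hn z.1 z.2 (hS z hz)

end Pool.Agent.CvD
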