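import Mathlib

/-!
# Numbers of points of plane curves: definitions

ALL CURVES (`MP_a56640_lc`), part 9 of the page: from absolutely irreducible polynomials, monic in
`y`, to all polynomials in two unknowns.

* `bq x`: the polynomial `∑ x_(i,j) x ^ i y ^ j` (`y` is the outer variable) over a ring;
  `bp K c`: the same for natural numbers `c`;
* `Bd D F`: `F` has degree at most `D` in `x` and in `y`;
* `CN m c`: the number of the solutions of `∑ c_(i,j) x ^ i y ^ j = 0` modulo `m`;
* `Ir p c`, `AI p c`: `p` is a prime and the polynomial is irreducible modulo `p`, absolutely irreducible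
  modulo `p`;
* `Gd d C p c`: moreover `C < p`, the total degree is at most `d` modulo `p`, the coefficient of `y ^ d` is `1`.
-/

set_option autoImplicit false

noncomputable section

namespace Pool.Agent.CvD

open Finset Polynomial
open scoped Polynomial.Bivariate

/-- the polynomial with the coefficients `x` -/
def bq {K : Type} [CommRing K] {D : ℕ} (x : Fin (D + 1) × Fin (D + 1) → K) : K[X][Y] :=
  ∑ i : Fin (D + 1), ∑ j : Fin (D + 1), C (C (x (i, j)) * X ^ (i : ℕ)) * X ^ (j : ℕ)

/-- the polynomial with the natural numbers `c` as coefficients -/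
def bp (K : Type) [CommRing K] {D : ℕ} (c : Fin (D + 1) → Fin (D + 1) → ℕ) : K[X][Y] :=
  bq fun i => (c i.1 i.2 : K)

/-- degree at most `D` in both unknowns -/
def Bd {K : Type} [CommRing K] (D : ℕ) (F : K[X][Y]) : Prop :=
  F.natDegree ≤ D ∧ ∀ j, (F.coeff j).natDegree ≤ D

/-- the number of the solutions of `∑ c_(i,j) x ^ i y ^ j = 0` modulo `m` -/
def CN (m : ℕ) {D : ℕ} (c : Fin (D + 1) → Fin (D + 1) → ℕ) : ℕ :=
  #{z ∈ range m ×ˢ range m | m ∣ ∑ i, ∑ j, c i j * z.1 ^ (i : ℕ) * z.2 ^ (j : ℕ)}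

/-- irreducible modulo the prime `p` -/
def Ir (p : ℕ) {D : ℕ} (c : Fin (D + 1) → Fin (D + 1) → ℕ) : Prop :=
  ∃ h : p.Prime, haveI := Fact.mk h; Irreducible (bp (ZMod p) c)

/-- absolutely irreducible modulo the prime `p` -/
def AI (p : ℕ) {D : ℕ} (c : Fin (D + 1) → Fin (D + 1) → ℕ) : Prop :=
  ∃ h : p.Prime, haveI := Fact.mk h; Irreducible (bp (AlgebraicClosure (ZMod p)) c)

/-- absolutely irreducible modulo the prime `p > C`, total degree at most `d`, monic in `y` -/
def Gd (d C p : ℕ) (c : Fin (d + 1) → Fin (d + 1) → ℕ) : Prop :=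
  C < p ∧ c 0 (Fin.last d) ≡ 1 [MOD p] ∧ (∀ i j : Fin (d + 1), d < (i : ℕ) + j → p ∣ c i j) ∧
    AI p c

end Pool.Agent.CvD
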