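import Pool.Agent.CvD.Rec
import Pool.Agent.HyP.Fin

/-!
# Package CvD-Fin: squarefree moduli; the equations `y ^ r = f(x)`

Complete proofs.

* `cn_sqf`: as HyD/Fin (`bn_sqf`): `PtC.crt_sqf`, `PtC.dfun_prodPF`, `cn_prime`, the bound `m ^ 2`.
* `pc_all`: modulo a prime `p` the equation `y ^ r = ∑ c_i x ^ i` is `∑ c_i x ^ i + (p - 1) y ^ r = 0`:
  coefficients in the square array of size `max D r + 1`.
* `en_curve`: `HyP.en_all` and `pc_all`.
-/

set_option autoImplicit false

namespace Pool.Agent.CvD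

open Finset Polynomial Pool.Agent.Grz Pool.Agent.GAvg Pool.Agent.PTr Pool.Agent.MTr
  Pool.Agent.LPC Pool.Agent.ECD
open scoped Classical

private theorem cfin_sqf {n : ℕ} {f : (Fin n → ℕ) → ℕ} (hf : DFun n f) :
    Delta0 n (fun v => Squarefree (f v)) := by
  have h1 : Delta0 (n + 1) (fun w => w 0 * w 0 ∣ f (fun i => w i.succ) → w 0 = 1) :=
    (delta_dvd ((DFun.proj 0).mul (DFun.proj 0)) hf.weak).imp
      (Delta0.eqFun (DFun.proj 0) (DFun.const 1))
  refine ((Delta0.ltFun (DFun.const 0) hf).and (Delta0.ballFun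
    (P := fun x v => x * x ∣ f v → x = 1) hf h1)).of_iff fun v => ?_
  constructor
  · intro h
    exact ⟨Nat.pos_of_ne_zero h.ne_zero, fun x _ hx => Nat.isUnit_iff.1 (h x hx)⟩
  · rintro ⟨h0, h⟩ x hx
    refine Nat.isUnit_iff.2 (h x ?_ hx)
    have h2 : x * x ≤ f v := Nat.le_of_dvd h0 hx
    exact (Nat.le_mul_self x).trans h2

private theorem cfin_card (m : ℕ) (P : ℕ × ℕ → Prop) [DecidablePred P] :
    #{z ∈ range m ×ˢ range m | P z} ≤ m ^ 2 := by
  refine (Finset.card_filter_le _ _).trans ?_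
  rw [Finset.card_product, Finset.card_range, pow_two]

private theorem cfin_crt {D m : ℕ} (hm : Squarefree m) (c : Fin (D + 1) → Fin (D + 1) → ℕ) :
    CN m c = ∏ p ∈ m.primeFactors, CN p c := by
  have h := PtC.crt_sqf (fun m x y => m ∣ ∑ i, ∑ j, c i j * x ^ (i : ℕ) * y ^ (j : ℕ))
    (fun m x y => ?_) (fun k l x y hkl => ?_) (one_dvd _) hm
  · unfold CN
    convert h using 2
    · congr
    · congr
  · have e1 : ((∑ i, ∑ j, c i j * (x % m) ^ (i : ℕ) * (y % m) ^ (j : ℕ) : ℕ) : ZMod m) =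
        ((∑ i, ∑ j, c i j * x ^ (i : ℕ) * y ^ (j : ℕ) : ℕ) : ZMod m) := by
      push_cast
      simp only [ZMod.natCast_mod]
    change m ∣ ∑ i, ∑ j, c i j * (x % m) ^ (i : ℕ) * (y % m) ^ (j : ℕ) ↔
      m ∣ ∑ i, ∑ j, c i j * x ^ (i : ℕ) * y ^ (j : ℕ)
    rw [← ZMod.natCast_eq_zero_iff, ← ZMod.natCast_eq_zero_iff, e1]
  · constructor
    · intro h
      exact ⟨(Dvd.intro _ rfl).trans h, (Dvd.intro_left _ rfl).trans h⟩
    · rintro ⟨h1, h2⟩
      exact Nat.Coprime.mul_dvd_of_dvd_of_dvd hkl h1 h2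

theorem cn_sqf (H : CurveHyp) {D n : ℕ} {m : (Fin n → ℕ) → ℕ}
    {c : Fin (D + 1) → Fin (D + 1) → (Fin n → ℕ) → ℕ} (hm : DFun n m)
    (hc : ∀ i j, DFun n (c i j)) :
    DFun n (fun v => if Squarefree (m v) then CN (m v) (fun i j => c i j v) else 0) := by
  have hs : Delta0 n (fun v => Squarefree (m v)) := cfin_sqf hm
  have hm' : DFun n (fun v => if Squarefree (m v) then m v else 1) :=
    DFun.ite hs hm (DFun.const 1)
  have hg : DFun (n + 1) (fun w => (fun (q : ℕ) (v : Fin n → ℕ) =>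
      if q.Prime then CN q (fun i j => c i j v) else 0) (w 0) (fun i => w i.succ)) :=
    cn_prime H (p := fun w => w 0) (c := fun i j w => c i j (fun i => w i.succ)) (DFun.proj 0)
      fun i j => (hc i j).weak
  have hsq : ∀ v : Fin n → ℕ, Squarefree (if Squarefree (m v) then m v else 1) := by
    intro v
    split_ifs with h
    · exact h
    · exact squarefree_one
  have hpr : ∀ v : Fin n → ℕ,
      ∏ q ∈ (if Squarefree (m v) then m v else 1).primeFactors,
        (if q.Prime then CN q (fun i j => c i j v) else 0) =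
      CN (if Squarefree (m v) then m v else 1) (fun i j => c i j v) := by
    intro v
    rw [cfin_crt (hsq v)]
    refine Finset.prod_congr rfl fun q hq => ?_
    rw [if_pos (Nat.prime_of_mem_primeFactors hq)]
  have h := PtC.dfun_prodPF (n := n) (m := fun v => if Squarefree (m v) then m v else 1)
    (B := fun v => (if Squarefree (m v) then m v else 1) ^ 2) hg hm' (DFun.powConst hm' 2)
    fun v => by
      rw [hpr v]
      unfold CN
      exact cfin_card _ _
  refine dfun_congr (DFun.ite hs h (DFun.const 0)) fun v => ?_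
  by_cases h0 : Squarefree (m v)
  · have e := hpr v
    rw [if_pos h0] at e
    rw [if_pos h0, if_pos h0]
    rw [if_pos h0]
    exact e.symm
  · rw [if_neg h0, if_neg h0]

/-- the coefficients of `∑ c_i x ^ i + (p - 1) y ^ r` -/
private def arr (r : ℕ) {D : ℕ} (p : ℕ) (c : Fin (D + 1) → ℕ) (i j : Fin (max D r + 1)) : ℕ :=
  (if j = 0 then (if h : (i : ℕ) < D + 1 then c ⟨i, h⟩ else 0) else 0) +
    (if i = 0 ∧ (j : ℕ) = r then p - 1 else 0)

private theorem arr_sum (r : ℕ) {D : ℕ} (p : ℕ) (c : Fin (D + 1) → ℕ) (x y : ℕ) :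
    ∑ i, ∑ j, arr r p c i j * x ^ (i : ℕ) * y ^ (j : ℕ) = HyP.ev c x + (p - 1) * y ^ r := by
  have h1 : ∀ i j, arr r p c i j * x ^ (i : ℕ) * y ^ (j : ℕ) =
      (if j = 0 then (if h : (i : ℕ) < D + 1 then c ⟨i, h⟩ else 0) else 0) * x ^ (i : ℕ) *
        y ^ (j : ℕ) +
      (if i = 0 ∧ (j : ℕ) = r then p - 1 else 0) * x ^ (i : ℕ) * y ^ (j : ℕ) := by
    intro i j
    unfold arr
    rw [add_mul, add_mul]
  have h2 : ∑ i : Fin (max D r + 1), ∑ j : Fin (max D r + 1),
      (if j = 0 then (if h : (i : ℕ) < D + 1 then c ⟨i, h⟩ else 0) else 0) * x ^ (i : ℕ) *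
        y ^ (j : ℕ) = HyP.ev c x := by
    have h3 : ∀ i : Fin (max D r + 1), ∑ j : Fin (max D r + 1),
        (if j = 0 then (if h : (i : ℕ) < D + 1 then c ⟨i, h⟩ else 0) else 0) * x ^ (i : ℕ) *
          y ^ (j : ℕ) =
        (fun k : ℕ => (if h : k < D + 1 then c ⟨k, h⟩ else 0) * x ^ k) i := by
      intro i
      rw [Finset.sum_eq_single (0 : Fin (max D r + 1)) (fun j _ hj => by
        rw [if_neg hj, zero_mul, zero_mul]) (fun h => (h (mem_univ _)).elim), if_pos rfl]
      show _ * y ^ ((0 : Fin (max D r + 1)) : ℕ) = _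
      rw [Fin.val_zero, pow_zero, mul_one]
    rw [Finset.sum_congr rfl fun i _ => h3 i, Fin.sum_univ_eq_sum_range
      (fun k : ℕ => (if h : k < D + 1 then c ⟨k, h⟩ else 0) * x ^ k) (max D r + 1)]
    have h4 : HyP.ev c x =
        ∑ k ∈ range (D + 1), (if h : k < D + 1 then c ⟨k, h⟩ else 0) * x ^ k := by
      rw [← Fin.sum_univ_eq_sum_range
        (fun k : ℕ => (if h : k < D + 1 then c ⟨k, h⟩ else 0) * x ^ k) (D + 1)]
      unfold HyP.ev
      refine Finset.sum_congr rfl fun i _ => ?_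
      show _ = (if h : (i : ℕ) < D + 1 then c ⟨i, h⟩ else 0) * x ^ (i : ℕ)
      rw [dif_pos i.isLt]
    rw [h4]
    symm
    refine Finset.sum_subset (Finset.range_mono (by omega)) fun k _ hk => ?_
    rw [dif_neg (fun h => hk (mem_range.2 h)), zero_mul]
  have h5 : ∑ i : Fin (max D r + 1), ∑ j : Fin (max D r + 1),
      (if i = 0 ∧ (j : ℕ) = r then p - 1 else 0) * x ^ (i : ℕ) * y ^ (j : ℕ) =
      (p - 1) * y ^ r := by
    rw [Finset.sum_eq_single (0 : Fin (max D r + 1)) (fun i _ hi => by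
        refine Finset.sum_eq_zero fun j _ => ?_
        rw [if_neg (fun h => hi h.1), zero_mul, zero_mul]) (fun h => (h (mem_univ _)).elim),
      Finset.sum_eq_single (⟨r, by omega⟩ : Fin (max D r + 1)) (fun j _ hj => by
        rw [if_neg (fun h => hj (Fin.ext h.2)), zero_mul, zero_mul])
        (fun h => (h (mem_univ _)).elim), if_pos ⟨rfl, rfl⟩, Fin.val_zero, pow_zero, mul_one]
  rw [Finset.sum_congr rfl fun i _ => Finset.sum_congr rfl fun j _ => h1 i j]
  simp only [Finset.sum_add_distrib]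
  rw [h2, h5]

private theorem en_arr (r : ℕ) {D p : ℕ} (hp : p.Prime) (c : Fin (D + 1) → ℕ) :
    HyP.EN r p c = CN p (arr r p c) := by
  unfold HyP.EN CN
  refine congrArg Finset.card (Finset.filter_congr fun z _ => ?_)
  rw [arr_sum, ← ZMod.natCast_eq_zero_iff, ← ZMod.natCast_eq_natCast_iff, Nat.cast_add,
    Nat.cast_mul, Nat.cast_sub hp.one_le, ZMod.natCast_self, Nat.cast_one, zero_sub, neg_mul,
    one_mul, ← sub_eq_add_neg, sub_eq_zero]
  exact eq_comm

theorem pc_all (H : CurveHyp) (r : ℕ) : HyP.PrimeCase r := by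
  intro D n p c hp hc
  have h1 : ∀ i j, DFun n (fun v => arr r (p v) (fun i => c i v) i j) := by
    intro i j
    unfold arr
    refine DFun.add ?_ ?_
    · by_cases hj : j = 0
      · by_cases hi : (i : ℕ) < D + 1
        · exact dfun_congr (hc ⟨i, hi⟩) fun v => by rw [if_pos hj, dif_pos hi]
        · exact dfun_congr (DFun.const 0) fun v => by rw [if_pos hj, dif_neg hi]
      · exact dfun_congr (DFun.const 0) fun v => by rw [if_neg hj]
    · by_cases hij : i = 0 ∧ (j : ℕ) = r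
      · exact dfun_congr (hp.sub (DFun.const 1)) fun v => by rw [if_pos hij]
      · exact dfun_congr (DFun.const 0) fun v => by rw [if_neg hij]
  refine dfun_congr (cn_prime H hp h1) fun v => ?_
  by_cases h : (p v).Prime
  · rw [if_pos h, if_pos h, en_arr r h]
  · rw [if_neg h, if_neg h]

theorem en_curve (H : CurveHyp) {r : ℕ} (hr : 0 < r) {D n : ℕ} {m : (Fin n → ℕ) → ℕ}
    {c : Fin (D + 1) → (Fin n → ℕ) → ℕ} (hm : DFun n m) (hc : ∀ i, DFun n (c i)) :
    DFun n (fun v => HyP.EN r (m v) (fun i => c i v)) :=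
  HyP.en_all hr (pc_all H r) hm hc

end Pool.Agent.CvD
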