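import Pool.Agent.CvD.Defs
import Pool.Agent.PtC.Final

/-!
# The hypothesis: absolutely irreducible polynomials, monic in `y`
-/

set_option autoImplicit false

namespace Pool.Agent.CvD

open Finset Pool.Agent.Grz Pool.Agent.GAvg Pool.Agent.PTr Pool.Agent.MTr Pool.Agent.LPC
  Pool.Agent.ECD
open scoped Classical

/-- The number of the points of an absolutely irreducible curve of degree `d`, monic in `y`, modulo a
large prime, is definable. -/
def CurveHyp : Prop :=
  ∀ d : ℕ, 0 < d → ∃ C : ℕ, ∀ (n : ℕ) (p : (Fin n → ℕ) → ℕ)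
    (c : Fin (d + 1) → Fin (d + 1) → (Fin n → ℕ) → ℕ), DFun n p → (∀ i j, DFun n (c i j)) →
    DFun n (fun v => if Gd d C (p v) (fun i j => c i j v) then
      CN (p v) (fun i j => c i j v) else 0)

end Pool.Agent.CvD
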