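import Pool.Agent.CvD.Bq
import Pool.Agent.PRc.Ex

/-!
# Irreducibility is a first-order relation

* `mul_prd`: the equation of polynomials is equivalent to the finitely many equations of the
  coefficients.
* `nu_prd`: `bq x` is a unit iff `x_(0,0) ≠ 0` and all the other `x_(i,j)` are `0`.
* `ir_prq`: `bq x` is irreducible if and only if it is not `0`, not a unit and there are no `y`, `z` with
  `bq y * bq z = bq x`, both not units.
* `ir_def`: the same for polynomials with natural numbers as coefficients modulo a prime.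
-/

set_option autoImplicit false

namespace Pool.Agent.CvD

open Finset Polynomial Pool.Agent.PRc Pool.Agent.Grz
open scoped Polynomial.Bivariate

/-- indices -/
abbrev Ix (D : ℕ) : Type := Fin (D + 1) × Fin (D + 1)

private theorem coe_IrQ {K : Type} [CommRing K] {D : ℕ} (x : Ix D → K) (i : Ix D) :
    ((bq x).coeff i.2).coeff i.1 = x i := by
  rw [bq_coeff, dif_pos ⟨i.1.2, i.2.2⟩]

private theorem co_IrQ {ι : Type} {D : ℕ} {g : Ix D → FF ι} (hg : ∀ i, PRF (g i)) (a b : ℕ) :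
    PRF (fun k _ x => ((bq (fun i => g i k x)).coeff b).coeff a) := by
  by_cases h : a < D + 1 ∧ b < D + 1
  · refine (hg (⟨a, h.1⟩, ⟨b, h.2⟩)).congr fun k _ x => ?_
    rw [bq_coeff, dif_pos h]
  · refine PRF.zero.congr fun k _ x => ?_
    rw [bq_coeff, dif_neg h]

private theorem coeff_IrQ {K : Type} [CommRing K] (F G : K[X][Y]) (a b : ℕ) :
    ((F * G).coeff b).coeff a = ∑ p ∈ antidiagonal b, ∑ q ∈ antidiagonal a,
      (F.coeff p.1).coeff q.1 * (G.coeff p.2).coeff q.2 := by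
  rw [coeff_mul, finsetSum_coeff]
  exact sum_congr rfl fun p _ => coeff_mul _ _ _

private theorem mul_iff_IrQ {K : Type} [CommRing K] {D : ℕ} (x y z : Ix D → K) :
    bq x * bq y = bq z ↔ ∀ q ∈ (range (2 * D + 1) ×ˢ range (2 * D + 1)),
      ((bq x * bq y).coeff q.2).coeff q.1 = ((bq z).coeff q.2).coeff q.1 := by
  constructor
  · intro h q _
    rw [h]
  · intro h
    refine Polynomial.ext fun b => Polynomial.ext fun a => ?_
    by_cases hab : a < 2 * D + 1 ∧ b < 2 * D + 1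
    · exact h (a, b) (mem_product.2 ⟨mem_range.2 hab.1, mem_range.2 hab.2⟩)
    · have h1 : ((bq z).coeff b).coeff a = 0 := by
        rw [bq_coeff, dif_neg]
        intro h2
        exact hab ⟨by omega, by omega⟩
      rw [h1, coeff_IrQ]
      refine sum_eq_zero fun p hp => sum_eq_zero fun q hq => ?_
      rw [HasAntidiagonal.mem_antidiagonal] at hp hq
      rw [bq_coeff, bq_coeff]
      by_cases h2 : q.1 < D + 1 ∧ p.1 < D + 1
      · by_cases h3 : q.2 < D + 1 ∧ p.2 < D + 1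
        · exact absurd ⟨by omega, by omega⟩ hab
        · rw [dif_neg h3, mul_zero]
      · rw [dif_neg h2, zero_mul]

theorem mul_prd (D : ℕ) : PRD (ι := Ix D ⊕ Ix D ⊕ Ix D)
    (fun _ _ x => bq (fun i => x (Sum.inl i)) * bq (fun i => x (Sum.inr (Sum.inl i))) =
      bq (fun i => x (Sum.inr (Sum.inr i)))) := by
  refine PRD.congr (PRD.all (range (2 * D + 1) ×ˢ range (2 * D + 1))
    (P := fun q k _ (x : Ix D ⊕ Ix D ⊕ Ix D → k) =>
      ((bq (fun i => x (Sum.inl i)) * bq (fun i => x (Sum.inr (Sum.inl i)))).coeff q.2).coeff q.1 =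
        ((bq (fun i => x (Sum.inr (Sum.inr i)))).coeff q.2).coeff q.1) fun q _ => ?_)
    fun k _ x => mul_iff_IrQ _ _ _
  refine PRD.eq ?_ (co_IrQ (fun i => PRF.var (Sum.inr (Sum.inr i))) q.1 q.2)
  refine (PRF.sum (antidiagonal q.2) (F := fun p k _ (x : Ix D ⊕ Ix D ⊕ Ix D → k) =>
    ∑ r ∈ antidiagonal q.1, ((bq (fun i => x (Sum.inl i))).coeff p.1).coeff r.1 *
      ((bq (fun i => x (Sum.inr (Sum.inl i)))).coeff p.2).coeff r.2) fun p _ => ?_).congr
    fun k _ x => coeff_IrQ _ _ _ _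
  refine PRF.sum (antidiagonal q.1) (F := fun r k _ (x : Ix D ⊕ Ix D ⊕ Ix D → k) =>
    ((bq (fun i => x (Sum.inl i))).coeff p.1).coeff r.1 *
      ((bq (fun i => x (Sum.inr (Sum.inl i)))).coeff p.2).coeff r.2) fun r _ => ?_
  exact (co_IrQ (fun i => PRF.var (Sum.inl i)) r.1 p.1).mul
    (co_IrQ (fun i => PRF.var (Sum.inr (Sum.inl i))) r.2 p.2)

private theorem unit_iff_IrQ {K : Type} [Field K] {D : ℕ} (x : Ix D → K) :
    IsUnit (bq x) ↔ x (0, 0) ≠ 0 ∧ ∀ i ∈ (univ.erase (0, 0) : Finset (Ix D)), x i = 0 := by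
  rw [unit_iff]
  constructor
  · rintro ⟨a, ha, h⟩
    have h0 := coe_IrQ x (0, 0)
    rw [h] at h0
    have h1 : a = x (0, 0) := by
      rw [← h0]
      simp
    refine ⟨by rw [← h1]; exact ha, fun i hi => ?_⟩
    have h2 := coe_IrQ x i
    rw [h] at h2
    rw [← h2, coeff_C]
    split_ifs with h3
    · rw [coeff_C, if_neg]
      intro h4
      refine ne_of_mem_erase hi ?_
      exact Prod.ext (Fin.ext h4) (Fin.ext h3)
    · exact coeff_zero _
  · rintro ⟨h0, h1⟩
    refine ⟨x (0, 0), h0, Polynomial.ext fun b => Polynomial.ext fun a => ?_⟩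
    rw [bq_coeff, coeff_C]
    by_cases hb : b = 0
    · subst hb
      rw [if_pos rfl, coeff_C]
      by_cases ha : a = 0
      · subst ha
        rw [if_pos rfl, dif_pos ⟨by omega, by omega⟩]
        rfl
      · rw [if_neg ha]
        split_ifs with h2
        · refine h1 _ (mem_erase.2 ⟨fun h3 => ha ?_, mem_univ _⟩)
          exact congrArg (fun t : Ix D => (t.1 : ℕ)) h3
        · rfl
    · rw [if_neg hb, coeff_zero]
      split_ifs with h2
      · refine h1 _ (mem_erase.2 ⟨fun h3 => hb ?_, mem_univ _⟩)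
        exact congrArg (fun t : Ix D => (t.2 : ℕ)) h3
      · rfl

theorem nu_prd (D : ℕ) : PRD (ι := Ix D) (fun _ _ x => ¬ IsUnit (bq x)) := by
  refine PRD.congr ((PRD.and (PRD.not (PRD.eq (PRF.var (0, 0)) PRF.zero))
    (PRD.all (univ.erase (0, 0) : Finset (Ix D)) (P := fun i k _ (x : Ix D → k) => x i = 0)
      fun i _ => PRD.eq (PRF.var i) PRF.zero)).not) fun k _ x => ?_
  exact not_congr (unit_iff_IrQ x)

private theorem zero_iff_IrQ {K : Type} [CommRing K] {D : ℕ} (x : Ix D → K) :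
    bq x = 0 ↔ ∀ i ∈ (univ : Finset (Ix D)), x i = 0 := by
  constructor
  · intro h i _
    have h1 := coe_IrQ x i
    rw [h, coeff_zero, coeff_zero] at h1
    exact h1.symm
  · intro h
    refine Polynomial.ext fun b => Polynomial.ext fun a => ?_
    rw [bq_coeff, coeff_zero, coeff_zero]
    split_ifs with h1
    · exact h _ (mem_univ _)
    · rfl

private theorem ir_iff_IrQ {K : Type} [Field K] {D : ℕ} (x : Ix D → K) :
    Irreducible (bq x) ↔ (¬ IsUnit (bq x) ∧ ¬ bq x = 0) ∧ ¬ ∃ z : Ix D ⊕ Ix D → K,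
      bq (fun i => z (Sum.inl i)) * bq (fun i => z (Sum.inr i)) = bq x ∧
      ¬ IsUnit (bq (fun i => z (Sum.inl i))) ∧ ¬ IsUnit (bq (fun i => z (Sum.inr i))) := by
  constructor
  · intro h
    refine ⟨⟨h.not_isUnit, h.ne_zero⟩, ?_⟩
    rintro ⟨z, h1, h2, h3⟩
    rcases h.isUnit_or_isUnit h1.symm with h4 | h4
    · exact h2 h4
    · exact h3 h4
  · rintro ⟨⟨h1, h2⟩, h3⟩
    refine ⟨h1, fun a b hab => ?_⟩
    by_contra hcon
    rw [not_or] at hcon
    obtain ⟨y, hy⟩ := bq_surj (bd_left hab.symm h2 (bq_bd x))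
    obtain ⟨z, hz⟩ := bq_surj (bd_left (G := b) (H := a) (by rw [mul_comm, ← hab]) h2 (bq_bd x))
    refine h3 ⟨Sum.elim y z, ?_, ?_, ?_⟩
    · show bq y * bq z = bq x
      rw [hy, hz, hab]
    · show ¬ IsUnit (bq y)
      rw [hy]
      exact hcon.1
    · show ¬ IsUnit (bq z)
      rw [hz]
      exact hcon.2

theorem ir_prq (D : ℕ) : PRQ (ι := Ix D) (fun _ _ x => Irreducible (bq x)) := by
  have h1 : PRQ (ι := Ix D) (fun _ _ x => ¬ IsUnit (bq x)) := PRQ.base (nu_prd D)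
  have h2 : PRQ (ι := Ix D) (fun _ _ x => bq x = 0) :=
    PRQ.base (PRD.congr (PRD.all (univ : Finset (Ix D))
      (P := fun i k _ (x : Ix D → k) => x i = 0) fun i _ => PRD.eq (PRF.var i) PRF.zero)
      fun k _ x => zero_iff_IrQ x)
  have h3 : PRQ (ι := Ix D ⊕ (Ix D ⊕ Ix D)) (fun _ _ x =>
      bq (fun i => x (Sum.inr (Sum.inl i))) * bq (fun i => x (Sum.inr (Sum.inr i))) =
        bq (fun i => x (Sum.inl i))) := by
    refine PRQ.base ?_
    exact PRD.comp (mul_prd D) (G := Sum.elim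
      (fun i => fun k _ (x : Ix D ⊕ (Ix D ⊕ Ix D) → k) => x (Sum.inr (Sum.inl i)))
      (Sum.elim (fun i => fun k _ (x : Ix D ⊕ (Ix D ⊕ Ix D) → k) => x (Sum.inr (Sum.inr i)))
        (fun i => fun k _ (x : Ix D ⊕ (Ix D ⊕ Ix D) → k) => x (Sum.inl i)))) (by
      rintro (i | i | i)
      · exact PRF.var (Sum.inr (Sum.inl i))
      · exact PRF.var (Sum.inr (Sum.inr i))
      · exact PRF.var (Sum.inl i))
  have h4 : PRQ (ι := Ix D ⊕ (Ix D ⊕ Ix D)) (fun _ _ x =>
      ¬ IsUnit (bq (fun i => x (Sum.inr (Sum.inl i))))) :=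
    PRQ.base (PRD.comp (nu_prd D)
      (G := fun i => fun k _ (x : Ix D ⊕ (Ix D ⊕ Ix D) → k) => x (Sum.inr (Sum.inl i)))
      fun i => PRF.var (Sum.inr (Sum.inl i)))
  have h5 : PRQ (ι := Ix D ⊕ (Ix D ⊕ Ix D)) (fun _ _ x =>
      ¬ IsUnit (bq (fun i => x (Sum.inr (Sum.inr i))))) :=
    PRQ.base (PRD.comp (nu_prd D)
      (G := fun i => fun k _ (x : Ix D ⊕ (Ix D ⊕ Ix D) → k) => x (Sum.inr (Sum.inr i)))
      fun i => PRF.var (Sum.inr (Sum.inr i)))
  exact ((h1.and h2.not).and (h3.and (h4.and h5)).ex.not).congr fun k _ x => (ir_iff_IrQ x).symm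

theorem ir_def {D n : ℕ} {p : (Fin n → ℕ) → ℕ} {c : Fin (D + 1) → Fin (D + 1) → (Fin n → ℕ) → ℕ}
    (hp : DFun n p) (hc : ∀ i j, DFun n (c i j)) :
    Delta0 n (fun v => Ir (p v) (fun i j => c i j v)) :=
  prq_delta (ir_prq D) (a := fun i => c i.1 i.2) hp fun i => hc i.1 i.2

end Pool.Agent.CvD
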