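import Pool.Agent.CvD.Bq

/-!
# Package CvD-LinP: a linear change of the unknowns

`F = ∑ c_(i,j) x ^ i y ^ j` of total degree at most `e` modulo `p`. `lc e u l c` are the coefficients of
`u * F(x + l y, y)`: since `(x + l y) ^ i y ^ j = ∑_a (i choose a) l ^ (i - a) x ^ a y ^ (i + j - a)`, the
coefficient of `x ^ a y ^ b` is `u ∑_{i + j = a + b, a ≤ i} c_(i,j) (i choose a) l ^ (i - a)`.
`tv e l c` is the value at `(l, 1)` of the part of degree `e`.

Complete proofs.

* `lc_top`: put `a = 0`, `b = e`.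
* `lc_deg`: all `c_(i,j)` with `i + j = a + b > e` are divisible by `p`.
* `tv_ex`: `tv e T c` modulo `p` is a polynomial in `T` of degree at most `D`, not `0` (its coefficient at
  `T ^ i` is `c_(i, e - i)`), so it has at most `D` roots, and `0, …, D` are different modulo `p`.
* `lc_bp`: over a field of characteristic `p`: `bp K (lc e u l c)` is `C (C u)` times the image of `bp K c`
  under the ring automorphism `X ↦ X + l Y`, `Y ↦ Y` of `K[X][Y]` (inverse: `-l`); only the terms with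
  `i + j ≤ e` matter, and for them all `a ≤ i` and `b = i + j - a ≤ e` occur. Hence `lc_ai`.
* `lc_cn`: modulo the prime `p` the value of `lc e u l c` at `(x, y)` is `u` times the value of `c` at
  `(x + l y, y)`; `(x, y) ↦ ((x + l y) % p, y)` is a bijection of `range p ×ˢ range p`.
-/

set_option autoImplicit false

noncomputable section

namespace Pool.Agent.CvD

open Finset Polynomial
open scoped Polynomial.Bivariate

/-- the coefficients of `u F(x + l y, y)` -/
def lc {D : ℕ} (e u l : ℕ) (c : Fin (D + 1) → Fin (D + 1) → ℕ) (a b : Fin (e + 1)) : ℕ :=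
  u * ∑ i : Fin (D + 1), ∑ j : Fin (D + 1), if (i : ℕ) + j = a + b ∧ (a : ℕ) ≤ i then
    c i j * (i : ℕ).choose a * l ^ ((i : ℕ) - a) else 0

/-- the part of degree `e` at `(l, 1)` -/
def tv {D : ℕ} (e l : ℕ) (c : Fin (D + 1) → Fin (D + 1) → ℕ) : ℕ :=
  ∑ i : Fin (D + 1), ∑ j : Fin (D + 1), if (i : ℕ) + j = e then c i j * l ^ (i : ℕ) else 0

variable {D e u l p : ℕ} {c : Fin (D + 1) → Fin (D + 1) → ℕ}

theorem lc_top : lc e u l c 0 (Fin.last e) = u * tv e l c := by
  unfold lc tv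
  congr 1
  refine Finset.sum_congr rfl fun i _ => Finset.sum_congr rfl fun j _ => ?_
  have h1 : ((i : ℕ) + j = ((0 : Fin (e + 1)) : ℕ) + (Fin.last e : ℕ) ∧
      ((0 : Fin (e + 1)) : ℕ) ≤ i) ↔ (i : ℕ) + j = e := by
    simp
  by_cases h : (i : ℕ) + j = e
  · rw [if_pos (h1.2 h), if_pos h]
    simp
  · rw [if_neg (fun h' => h (h1.1 h')), if_neg h]

theorem lc_deg (h : ∀ i j : Fin (D + 1), e < (i : ℕ) + j → p ∣ c i j) (a b : Fin (e + 1))
    (hab : e < (a : ℕ) + b) : p ∣ lc e u l c a b := by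
  unfold lc
  refine Dvd.dvd.mul_left (Finset.dvd_sum fun i _ => Finset.dvd_sum fun j _ => ?_) _
  split_ifs with h1
  · exact Dvd.dvd.mul_right (Dvd.dvd.mul_right (h i j (by omega)) _) _
  · exact dvd_zero p

theorem tv_ex (hp : p.Prime) (hD : D < p) (h : ∃ i j : Fin (D + 1), (i : ℕ) + j = e ∧ ¬ p ∣ c i j) :
    ∃ l ≤ D, ¬ p ∣ tv e l c := by
  by_contra hne
  push Not at hne
  have := Fact.mk hp
  obtain ⟨i0, j0, h0, hn⟩ := h
  obtain ⟨P, hP⟩ : ∃ P : (ZMod p)[X], P = ∑ i : Fin (D + 1), ∑ j : Fin (D + 1),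
    if (i : ℕ) + j = e then C ((c i j : ℕ) : ZMod p) * X ^ (i : ℕ) else 0 := ⟨_, rfl⟩
  have hdeg : P.natDegree ≤ D := by
    rw [hP]
    refine natDegree_sum_le_of_forall_le _ _ fun i _ =>
      natDegree_sum_le_of_forall_le _ _ fun j _ => ?_
    split_ifs
    · exact (natDegree_C_mul_X_pow_le _ _).trans (Nat.lt_succ_iff.1 i.2)
    · simp
  have hev : ∀ l : ℕ, P.eval (l : ZMod p) = ((tv e l c : ℕ) : ZMod p) := by
    intro l
    rw [hP, eval_finsetSum]
    unfold tv
    rw [Nat.cast_sum]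
    refine Finset.sum_congr rfl fun i _ => ?_
    rw [eval_finsetSum, Nat.cast_sum]
    refine Finset.sum_congr rfl fun j _ => ?_
    split_ifs
    · simp
    · simp
  have h1 : P = 0 := by
    refine Polynomial.eq_zero_of_natDegree_lt_card_of_eval_eq_zero P
      (f := fun i : Fin (D + 1) => ((i : ℕ) : ZMod p)) ?_ ?_ ?_
    · intro i j hij
      have h2 := (ZMod.natCast_eq_natCast_iff' _ _ _).1 hij
      rw [Nat.mod_eq_of_lt (by omega), Nat.mod_eq_of_lt (by omega)] at h2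
      exact Fin.ext h2
    · intro i
      rw [hev]
      exact (ZMod.natCast_eq_zero_iff _ _).2 (hne i (Nat.lt_succ_iff.1 i.2))
    · rw [Fintype.card_fin]
      exact Nat.lt_succ_of_le hdeg
  have h2 : P.coeff (i0 : ℕ) = ((c i0 j0 : ℕ) : ZMod p) := by
    rw [hP, finsetSum_coeff, Finset.sum_eq_single i0, finsetSum_coeff,
      Finset.sum_eq_single j0, if_pos h0, coeff_C_mul, coeff_X_pow, if_pos rfl, mul_one]
    · intro j _ hj
      rw [if_neg, coeff_zero]
      intro h3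
      exact hj (Fin.ext (by omega))
    · intro h3
      exact absurd (Finset.mem_univ _) h3
    · intro i _ hi
      rw [finsetSum_coeff]
      refine Finset.sum_eq_zero fun j _ => ?_
      split_ifs
      · rw [coeff_C_mul, coeff_X_pow, if_neg, mul_zero]
        intro h3
        exact hi (Fin.ext h3.symm)
      · exact coeff_zero _
    · intro h3
      exact absurd (Finset.mem_univ _) h3
  rw [h1, coeff_zero] at h2
  exact hn ((ZMod.natCast_eq_zero_iff _ _).1 h2.symm)

private theorem inner_LinP {R : Type} [CommRing R] (x y t : R) (e i j : ℕ) (h : i + j ≤ e) :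
    ∑ a : Fin (e + 1), ∑ b : Fin (e + 1), (if i + j = (a : ℕ) + b ∧ (a : ℕ) ≤ i then
      ((i.choose a : ℕ) : R) * t ^ (i - (a : ℕ)) * x ^ (a : ℕ) * y ^ (b : ℕ) else 0) =
      (x + t * y) ^ i * y ^ j := by
  have h1 : ∀ a : Fin (e + 1), (∑ b : Fin (e + 1), (if i + j = (a : ℕ) + b ∧ (a : ℕ) ≤ i then
      ((i.choose a : ℕ) : R) * t ^ (i - (a : ℕ)) * x ^ (a : ℕ) * y ^ (b : ℕ) else 0)) =
      if (a : ℕ) ≤ i then
        ((i.choose a : ℕ) : R) * t ^ (i - (a : ℕ)) * x ^ (a : ℕ) * y ^ (i + j - (a : ℕ))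
      else 0 := by
    intro a
    by_cases ha : (a : ℕ) ≤ i
    · rw [if_pos ha, Finset.sum_eq_single (⟨i + j - a, by omega⟩ : Fin (e + 1))]
      · rw [if_pos]
        refine ⟨?_, ha⟩
        change i + j = (a : ℕ) + (i + j - a)
        omega
      · intro b _ hb
        rw [if_neg]
        rintro ⟨h2, _⟩
        refine hb (Fin.ext ?_)
        change (b : ℕ) = i + j - a
        omega
      · intro h
        exact absurd (Finset.mem_univ _) h
    · rw [if_neg ha]
      refine Finset.sum_eq_zero fun b _ => ?_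
      rw [if_neg]
      exact fun h => ha h.2
  rw [Finset.sum_congr rfl fun a _ => h1 a,
    Fin.sum_univ_eq_sum_range (fun a => if a ≤ i then
      ((i.choose a : ℕ) : R) * t ^ (i - a) * x ^ a * y ^ (i + j - a) else 0) (e + 1),
    ← Finset.sum_subset (Finset.range_mono (by omega : i + 1 ≤ e + 1)), add_pow,
    Finset.sum_mul]
  · refine Finset.sum_congr rfl fun a ha => ?_
    have ha' := Finset.mem_range.1 ha
    rw [if_pos (by omega), show i + j - a = (i - a) + j by omega, pow_add, mul_pow]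
    ring
  · intro a _ ha
    rw [if_neg]
    intro h2
    exact ha (Finset.mem_range.2 (by omega))

private theorem lc_sum_LinP {R : Type} [CommRing R] (x y : R)
    (h : ∀ i j : Fin (D + 1), e < (i : ℕ) + j → ((c i j : ℕ) : R) = 0) :
    ∑ a : Fin (e + 1), ∑ b : Fin (e + 1), ((lc e u l c a b : ℕ) : R) * x ^ (a : ℕ) *
      y ^ (b : ℕ) = (u : R) * ∑ i : Fin (D + 1), ∑ j : Fin (D + 1),
        ((c i j : ℕ) : R) * (x + (l : R) * y) ^ (i : ℕ) * y ^ (j : ℕ) := by
  have h1 : ∀ a b : Fin (e + 1), ((lc e u l c a b : ℕ) : R) * x ^ (a : ℕ) * y ^ (b : ℕ) =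
      ∑ i : Fin (D + 1), ∑ j : Fin (D + 1), (u : R) * (((c i j : ℕ) : R) *
        (if (i : ℕ) + j = (a : ℕ) + b ∧ (a : ℕ) ≤ i then
          (((i : ℕ).choose a : ℕ) : R) * (l : R) ^ ((i : ℕ) - (a : ℕ)) * x ^ (a : ℕ) *
            y ^ (b : ℕ) else 0)) := by
    intro a b
    unfold lc
    rw [Nat.cast_mul, Nat.cast_sum, mul_assoc, mul_assoc, Finset.sum_mul, Finset.mul_sum]
    refine Finset.sum_congr rfl fun i _ => ?_
    rw [Nat.cast_sum, Finset.sum_mul, Finset.mul_sum]
    refine Finset.sum_congr rfl fun j _ => ?_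
    split_ifs
    · push_cast
      ring
    · simp
  have h2 : ∀ i j : Fin (D + 1), (∑ a : Fin (e + 1), ∑ b : Fin (e + 1),
      (u : R) * (((c i j : ℕ) : R) *
        (if (i : ℕ) + j = (a : ℕ) + b ∧ (a : ℕ) ≤ i then
          (((i : ℕ).choose a : ℕ) : R) * (l : R) ^ ((i : ℕ) - (a : ℕ)) * x ^ (a : ℕ) *
            y ^ (b : ℕ) else 0))) =
      (u : R) * (((c i j : ℕ) : R) * (x + (l : R) * y) ^ (i : ℕ) * y ^ (j : ℕ)) := by
    intro i j
    by_cases hij : e < (i : ℕ) + j
    · rw [h i j hij]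
      simp
    · have h3 := inner_LinP x y (l : R) e i j (not_lt.1 hij)
      rw [mul_assoc, ← h3, Finset.mul_sum, Finset.mul_sum]
      refine Finset.sum_congr rfl fun a _ => ?_
      rw [Finset.mul_sum, Finset.mul_sum]
  calc ∑ a : Fin (e + 1), ∑ b : Fin (e + 1), ((lc e u l c a b : ℕ) : R) * x ^ (a : ℕ) *
      y ^ (b : ℕ)
      = ∑ a : Fin (e + 1), ∑ b : Fin (e + 1), ∑ i : Fin (D + 1), ∑ j : Fin (D + 1),
        (u : R) * (((c i j : ℕ) : R) *
        (if (i : ℕ) + j = (a : ℕ) + b ∧ (a : ℕ) ≤ i then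
          (((i : ℕ).choose a : ℕ) : R) * (l : R) ^ ((i : ℕ) - (a : ℕ)) * x ^ (a : ℕ) *
            y ^ (b : ℕ) else 0)) :=
        Finset.sum_congr rfl fun a _ => Finset.sum_congr rfl fun b _ => h1 a b
    _ = ∑ i : Fin (D + 1), ∑ j : Fin (D + 1), ∑ a : Fin (e + 1), ∑ b : Fin (e + 1),
        (u : R) * (((c i j : ℕ) : R) *
        (if (i : ℕ) + j = (a : ℕ) + b ∧ (a : ℕ) ≤ i then
          (((i : ℕ).choose a : ℕ) : R) * (l : R) ^ ((i : ℕ) - (a : ℕ)) * x ^ (a : ℕ) *
            y ^ (b : ℕ) else 0)) := by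
        rw [Finset.sum_congr rfl fun a _ => Finset.sum_comm, Finset.sum_comm]
        refine Finset.sum_congr rfl fun i _ => ?_
        rw [Finset.sum_congr rfl fun a _ => Finset.sum_comm, Finset.sum_comm]
    _ = _ := by
        rw [Finset.mul_sum]
        refine Finset.sum_congr rfl fun i _ => ?_
        rw [Finset.mul_sum]
        exact Finset.sum_congr rfl fun j _ => h2 i j

theorem lc_cn (hp : p.Prime) (hu : ¬ p ∣ u)
    (h : ∀ i j : Fin (D + 1), e < (i : ℕ) + j → p ∣ c i j) : CN p (lc e u l c) = CN p c := by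
  have := Fact.mk hp
  have hu' : (u : ZMod p) ≠ 0 := fun h0 => hu ((ZMod.natCast_eq_zero_iff _ _).1 h0)
  have key : ∀ x y : ℕ, (p ∣ ∑ a, ∑ b, lc e u l c a b * x ^ (a : ℕ) * y ^ (b : ℕ)) ↔
      p ∣ ∑ i, ∑ j, c i j * ((x + l * y) % p) ^ (i : ℕ) * y ^ (j : ℕ) := by
    intro x y
    rw [← ZMod.natCast_eq_zero_iff, ← ZMod.natCast_eq_zero_iff]
    push_cast
    have h1 := lc_sum_LinP (R := ZMod p) (e := e) (u := u) (l := l) (c := c) (x : ZMod p)
      (y : ZMod p) (fun i j hij => (ZMod.natCast_eq_zero_iff _ _).2 (h i j hij))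
    rw [h1, mul_eq_zero]
    have h2 : ((((x + l * y) % p : ℕ) : ℕ) : ZMod p) = (x : ZMod p) + (l : ZMod p) * y := by
      rw [ZMod.natCast_mod]
      push_cast
      rfl
    rw [h2]
    exact ⟨fun h3 => h3.resolve_left hu', Or.inr⟩
  have hp0 := hp.pos
  unfold CN
  refine Finset.card_bij (fun z _ => ((z.1 + l * z.2) % p, z.2)) ?_ ?_ ?_
  · intro z hz
    rw [Finset.mem_filter, Finset.mem_product, Finset.mem_range, Finset.mem_range] at hz ⊢
    exact ⟨⟨Nat.mod_lt _ hp0, hz.1.2⟩, (key z.1 z.2).1 hz.2⟩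
  · intro z hz z' hz' he
    rw [Finset.mem_filter, Finset.mem_product, Finset.mem_range, Finset.mem_range] at hz hz'
    have h1 : z.2 = z'.2 := (Prod.mk.inj he).2
    have h2 : (z.1 + l * z.2) % p = (z'.1 + l * z'.2) % p := (Prod.mk.inj he).1
    rw [h1] at h2
    have h3 : z.1 ≡ z'.1 [MOD p] := Nat.ModEq.add_right_cancel' (l * z'.2) h2
    refine Prod.ext ?_ h1
    exact Nat.ModEq.eq_of_lt_of_lt h3 hz.1.1 hz'.1.1
  · intro w hw
    rw [Finset.mem_filter, Finset.mem_product, Finset.mem_range, Finset.mem_range] at hw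
    have h1 : ((w.1 + (p - 1) * (l * w.2)) % p + l * w.2) % p = w.1 := by
      rw [Nat.mod_add_mod, add_assoc, ← Nat.succ_mul, Nat.succ_eq_add_one,
        Nat.sub_add_cancel hp.one_le, Nat.add_mul_mod_self_left, Nat.mod_eq_of_lt hw.1.1]
    refine ⟨((w.1 + (p - 1) * (l * w.2)) % p, w.2), ?_, ?_⟩
    · rw [Finset.mem_filter, Finset.mem_product, Finset.mem_range, Finset.mem_range]
      refine ⟨⟨Nat.mod_lt _ hp0, hw.1.2⟩, (key _ _).2 ?_⟩
      change p ∣ ∑ i, ∑ j, c i j *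
        (((w.1 + (p - 1) * (l * w.2)) % p + l * w.2) % p) ^ (i : ℕ) * w.2 ^ (j : ℕ)
      rw [h1]
      exact hw.2
    · exact Prod.ext h1 rfl

private theorem bp_eq_LinP (K : Type) [CommRing K] {D : ℕ}
    (c : Fin (D + 1) → Fin (D + 1) → ℕ) :
    bp K c = ∑ i : Fin (D + 1), ∑ j : Fin (D + 1),
      ((c i j : ℕ) : K[X][Y]) * (C X) ^ (i : ℕ) * X ^ (j : ℕ) := by
  unfold bp bq
  refine Finset.sum_congr rfl fun i _ => Finset.sum_congr rfl fun j _ => ?_
  rw [map_mul, map_pow]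
  simp

/-- `X ↦ X + t Y` -/
private def fi_LinP (K : Type) [Field K] (t : K) : K[X][Y] →+* K[X][Y] :=
  eval₂RingHom (eval₂RingHom ((C : K[X] →+* K[X][Y]).comp (C : K →+* K[X]))
    (C X + C (C t) * X)) X

private theorem fi_comp_LinP (K : Type) [Field K] (t t' : K) (h : t + t' = 0) :
    (fi_LinP K t).comp (fi_LinP K t') = RingHom.id K[X][Y] := by
  refine Polynomial.ringHom_ext' (Polynomial.ringHom_ext' ?_ ?_) ?_
  · ext k
    simp [fi_LinP]
  · have h1 : (C (C t) : K[X][Y]) + C (C t') = 0 := by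
      rw [← map_add, ← map_add, h, map_zero, map_zero]
    simp only [fi_LinP, RingHom.comp_apply, coe_eval₂RingHom, eval₂_C, eval₂_X, eval₂_add,
      eval₂_mul, RingHom.id_apply]
    linear_combination X * h1
  · simp [fi_LinP]

theorem lc_ai (hu : ¬ p ∣ u) (h : ∀ i j : Fin (D + 1), e < (i : ℕ) + j → p ∣ c i j)
    (hc : AI p c) : AI p (lc e u l c) := by
  obtain ⟨hp, hc⟩ := hc
  refine ⟨hp, ?_⟩
  have := Fact.mk hp
  have hu' : (u : AlgebraicClosure (ZMod p)) ≠ 0 := fun h0 =>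
    hu ((CharP.cast_eq_zero_iff (AlgebraicClosure (ZMod p)) p u).1 h0)
  have h1 : bp (AlgebraicClosure (ZMod p)) (lc e u l c) =
      (u : (AlgebraicClosure (ZMod p))[X][Y]) * fi_LinP (AlgebraicClosure (ZMod p)) l
        (bp (AlgebraicClosure (ZMod p)) c) := by
    rw [bp_eq_LinP, lc_sum_LinP, bp_eq_LinP, map_sum]
    · congr 1
      refine Finset.sum_congr rfl fun i _ => ?_
      rw [map_sum]
      refine Finset.sum_congr rfl fun j _ => ?_
      rw [map_mul, map_mul, map_natCast, map_pow, map_pow]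
      congr 3
      · simp [fi_LinP]
      · simp [fi_LinP]
    · intro i j hij
      have h2 : ((c i j : ℕ) : AlgebraicClosure (ZMod p)) = 0 :=
        (CharP.cast_eq_zero_iff (AlgebraicClosure (ZMod p)) p _).2 (h i j hij)
      have h3 : ((c i j : ℕ) : (AlgebraicClosure (ZMod p))[X][Y]) =
          C (C ((c i j : ℕ) : AlgebraicClosure (ZMod p))) := by simp
      rw [h3, h2, map_zero, map_zero]
  have h4 : IsUnit (u : (AlgebraicClosure (ZMod p))[X][Y]) := by
    have h5 : ((u : ℕ) : (AlgebraicClosure (ZMod p))[X][Y]) =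
        C (C ((u : ℕ) : AlgebraicClosure (ZMod p))) := by simp
    rw [h5]
    exact ((IsUnit.mk0 _ hu').map C).map C
  rw [h1, irreducible_isUnit_mul h4]
  exact (MulEquiv.irreducible_iff (RingEquiv.ofRingHom
    (fi_LinP (AlgebraicClosure (ZMod p)) (l : ℕ))
    (fi_LinP (AlgebraicClosure (ZMod p)) (-((l : ℕ) : AlgebraicClosure (ZMod p))))
    (fi_comp_LinP _ _ _ (add_neg_cancel _)) (fi_comp_LinP _ _ _ (neg_add_cancel _)))).2 hc

end Pool.Agent.CvD
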