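import Pool.Agent.CvD.Hyp

/-!
# Package CvD-Pair: small sets of pairs

Complete proofs.

* `cnt_pairs`: `PtC.cnt_small` for the codes `x * B + y < B ^ 2` of the pairs (`x = z / B`, `y = z % B`;
  `B = 0`: the set is empty; `DFun.div`, `DFun.modAny` or similar; `Finset.card_bij`).
* `cn_small`: for a constant modulus `CN` is a sum of finitely many indicators (`Finset.card_filter`,
  `DFun.finSum`, `delta_dvd`).
* `val_def`: `∑ c_(i,j) x ^ i y ^ j` is in the class: powers with constant exponents.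
-/

set_option autoImplicit false

namespace Pool.Agent.CvD

open Finset Pool.Agent.Grz Pool.Agent.GAvg Pool.Agent.PTr Pool.Agent.MTr Pool.Agent.LPC
  Pool.Agent.ECD
open scoped Classical

theorem val_def {D n : ℕ} {x y : (Fin n → ℕ) → ℕ}
    {c : Fin (D + 1) → Fin (D + 1) → (Fin n → ℕ) → ℕ} (hx : DFun n x) (hy : DFun n y)
    (hc : ∀ i j, DFun n (c i j)) :
    DFun n (fun v => ∑ i, ∑ j, c i j v * (x v) ^ (i : ℕ) * (y v) ^ (j : ℕ)) :=
  DFun.finSum univ (f := fun i v => ∑ j, c i j v * (x v) ^ (i : ℕ) * (y v) ^ (j : ℕ))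
    fun i => DFun.finSum univ (f := fun j v => c i j v * (x v) ^ (i : ℕ) * (y v) ^ (j : ℕ))
      fun j => ((hc i j).mul (DFun.powConst hx _)).mul (DFun.powConst hy _)

private theorem card_Pair (B : ℕ) (P : ℕ → ℕ → Prop) :
    #{z ∈ range (B * B) | P (z / (B - 1 + 1)) (z % (B - 1 + 1))} =
      #{z ∈ range B ×ˢ range B | P z.1 z.2} := by
  rcases Nat.eq_zero_or_pos B with h0 | h0
  · subst h0
    simp
  have hB : B - 1 + 1 = B := Nat.sub_add_cancel h0
  rw [hB]
  refine Finset.card_bij' (fun z _ => (z / B, z % B)) (fun z _ => z.1 * B + z.2) ?_ ?_ ?_ ?_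
  · intro z hz
    rw [Finset.mem_filter, mem_range] at hz
    rw [Finset.mem_filter, mem_product, mem_range, mem_range]
    exact ⟨⟨(Nat.div_lt_iff_lt_mul h0).2 hz.1, Nat.mod_lt _ h0⟩, hz.2⟩
  · intro z hz
    rw [Finset.mem_filter, mem_product, mem_range, mem_range] at hz
    obtain ⟨⟨h1, h2⟩, h3⟩ := hz
    have e1 : (z.1 * B + z.2) / B = z.1 := by
      rw [Nat.add_comm, Nat.add_mul_div_right _ _ h0, Nat.div_eq_of_lt h2, zero_add]
    have e2 : (z.1 * B + z.2) % B = z.2 := by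
      rw [Nat.add_comm, Nat.add_mul_mod_self_right, Nat.mod_eq_of_lt h2]
    rw [Finset.mem_filter, mem_range, e1, e2]
    refine ⟨?_, h3⟩
    calc z.1 * B + z.2 < z.1 * B + B := by omega
      _ = (z.1 + 1) * B := by ring
      _ ≤ B * B := Nat.mul_le_mul_right _ h1
  · intro z _
    exact Nat.div_add_mod' z B
  · intro z hz
    rw [Finset.mem_filter, mem_product, mem_range, mem_range] at hz
    obtain ⟨⟨h1, h2⟩, h3⟩ := hz
    have e1 : (z.1 * B + z.2) / B = z.1 := by
      rw [Nat.add_comm, Nat.add_mul_div_right _ _ h0, Nat.div_eq_of_lt h2, zero_add]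
    have e2 : (z.1 * B + z.2) % B = z.2 := by
      rw [Nat.add_comm, Nat.add_mul_mod_self_right, Nat.mod_eq_of_lt h2]
    exact Prod.ext e1 e2

theorem cnt_pairs {n : ℕ} (k : ℕ) {B : (Fin n → ℕ) → ℕ} {A : ℕ → ℕ → (Fin n → ℕ) → Prop}
    (hB : DFun n B) (hA : Delta0 (n + 2) (fun w => A (w 0) (w 1) (fun i => w i.succ.succ))) :
    DFun n (fun v => min k #{z ∈ range (B v) ×ˢ range (B v) | A z.1 z.2 v}) := by
  have h0 : DFun (n + 1) (fun w => w 0) := DFun.proj 0
  have hB1 : DFun (n + 1) (fun w => B (fun i => w i.succ) - 1) := hB.weak.sub (DFun.const 1)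
  let h : Fin (n + 2) → (Fin (n + 1) → ℕ) → ℕ :=
    Fin.cons (fun w => w 0 / (B (fun i => w i.succ) - 1 + 1))
      (Fin.cons (fun w => w 0 % (B (fun i => w i.succ) - 1 + 1)) (fun i w => w i.succ))
  have hh : ∀ i, DFun (n + 1) (h i) := by
    intro i
    refine Fin.cases ?_ (fun j => ?_) i
    · exact h0.div hB1
    · refine Fin.cases ?_ (fun l => ?_) j
      · exact h0.mod hB1
      · exact DFun.proj l.succ
  have h1 : Delta0 (n + 1) (fun w => A (w 0 / (B (fun i => w i.succ) - 1 + 1))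
      (w 0 % (B (fun i => w i.succ) - 1 + 1)) (fun i => w i.succ)) :=
    (hA.subst hh).of_iff fun w => Iff.rfl
  have h2 := PtC.cnt_small (n := n) k (B := fun v => B v * B v)
    (A := fun z v => A (z / (B v - 1 + 1)) (z % (B v - 1 + 1)) v) (hB.mul hB) h1
  refine (show (fun v => min k #{z ∈ range (B v) ×ˢ range (B v) | A z.1 z.2 v}) = _ from ?_) ▸ h2
  funext v
  rw [card_Pair (B v) (fun x y => A x y v)]

theorem cn_small {D n : ℕ} (m : ℕ) {c : Fin (D + 1) → Fin (D + 1) → (Fin n → ℕ) → ℕ}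
    (hc : ∀ i j, DFun n (c i j)) : DFun n (fun v => CN m (fun i j => c i j v)) := by
  have h1 : ∀ z : ℕ × ℕ, DFun n (fun v =>
      if m ∣ ∑ i, ∑ j, c i j v * z.1 ^ (i : ℕ) * z.2 ^ (j : ℕ) then 1 else 0) := fun z =>
    DFun.ite (delta_dvd (DFun.const m)
      (val_def (x := fun _ => z.1) (y := fun _ => z.2) (DFun.const z.1) (DFun.const z.2) hc))
      (DFun.const 1) (DFun.const 0)
  have h2 := DFun.finSum (range m ×ˢ range m) h1
  refine (show (fun v => CN m (fun i j => c i j v)) = _ from ?_) ▸ h2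
  funext v
  unfold CN
  rw [card_filter]

end Pool.Agent.CvD
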