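import Pool.Agent.CvD.Conj
import Pool.Agent.CvD.AiQ
import Pool.Agent.CvD.Pair
import Pool.Agent.CvD.LinP

/-!
# Package CvD-Irr: irreducible polynomials modulo primes

Complete proof. Let `C₀` be the maximum of `2 D` and of the constants `C` of `CurveHyp` for all `d` with
`1 ≤ d ≤ 2 D`. `p ≤ C₀`: finitely many values of `p`: `cn_small` (`DFun.finSum`). `p > C₀` and the polynomial
irreducible modulo `p`:

* absolutely irreducible (`ai_def`): the total degree modulo `p` is some `e` with `1 ≤ e ≤ 2 D` (case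
  distinction, `DFun.finSum` over `e`; the condition `all c_(i,j)` with `i + j > e` are divisible by `p` and
  some `c_(i,j)` with `i + j = e` is not), `l ≤ D` is the least number with `¬ p ∣ tv e l c` (`tv_ex`; case
  distinction over `l`), `u < p` is the inverse of `tv e l c` modulo `p` (`DFun.ofGraph` with the
  bound `p`, or `PRc.prf_dfun'` with `PRF.inv`). Then `Gd e C p (lc e u l c)` (`lc_top`, `lc_deg`, `lc_ai`) and
  `CN p (lc e u l c) = CN p c` (`lc_cn`): `CurveHyp` for `e` with the coefficients `lc e u l c` (finite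
  sums, products, powers with constant exponents).
* not absolutely irreducible: `CN p c ≤ B` by `conj D`, so `CN p c = min B (CN p c)`: `cnt_pairs`.
  (`Bd D (bp K c)`, and `bp (AlgebraicClosure (ZMod p)) c` is the image of `bp (ZMod p) c`; pairs of natural
  numbers `< p` and pairs in `ZMod p`.)
-/

set_option autoImplicit false

namespace Pool.Agent.CvD

open Finset Polynomial Pool.Agent.Grz Pool.Agent.GAvg Pool.Agent.PTr Pool.Agent.MTr
  Pool.Agent.LPC Pool.Agent.ECD
open scoped Classical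

/-- `e` is the total degree modulo `p`, `l` the least number with `¬ p ∣ tv e l c` -/
private def Cd_Irr {D : ℕ} (p e l : ℕ) (c : Fin (D + 1) → Fin (D + 1) → ℕ) : Prop :=
  (∀ i j : Fin (D + 1), e < (i : ℕ) + j → p ∣ c i j) ∧
    (∃ i j : Fin (D + 1), (i : ℕ) + j = e ∧ ¬ p ∣ c i j) ∧
    ¬ p ∣ tv e l c ∧ ∀ l' ∈ range l, p ∣ tv e l' c

private theorem tv_def_Irr {D n e l : ℕ} {c : Fin (D + 1) → Fin (D + 1) → (Fin n → ℕ) → ℕ}
    (hc : ∀ i j, DFun n (c i j)) : DFun n (fun v => tv e l (fun i j => c i j v)) := by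
  unfold tv
  refine DFun.finSum _ fun i => DFun.finSum _ fun j => ?_
  by_cases h : (i : ℕ) + j = e
  · simp only [if_pos h]
    exact (hc i j).mul (DFun.const _)
  · simp only [if_neg h]
    exact DFun.const 0

private theorem cd_def_Irr {D n e l : ℕ} {p : (Fin n → ℕ) → ℕ}
    {c : Fin (D + 1) → Fin (D + 1) → (Fin n → ℕ) → ℕ} (hp : DFun n p)
    (hc : ∀ i j, DFun n (c i j)) :
    Delta0 n (fun v => Cd_Irr (p v) e l (fun i j => c i j v)) := by
  have h0 : ∀ P : Prop, Delta0 n (fun _ => P) := by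
    intro P
    by_cases hP : P
    · exact (Delta0.eqFun (DFun.const 0) (DFun.const 0)).of_iff fun v => by simp [hP]
    · exact (Delta0.eqFun (DFun.const 0) (DFun.const 1)).of_iff fun v => by simp [hP]
  unfold Cd_Irr
  refine Delta0.and ?_ (Delta0.and ?_ (Delta0.and ?_ ?_))
  · exact Delta0.allOf fun i => Delta0.allOf fun j => (h0 _).imp (delta_dvd hp (hc i j))
  · exact Delta0.exOf fun i => Delta0.exOf fun j => (h0 _).and (delta_dvd hp (hc i j)).not
  · exact (delta_dvd hp (tv_def_Irr hc)).not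
  · exact Delta0.finAll _ fun l' => delta_dvd hp (tv_def_Irr hc)

/-- the inverse of `tv e l c` modulo `p` -/
private noncomputable def u_Irr {D : ℕ} (p e l : ℕ) (c : Fin (D + 1) → Fin (D + 1) → ℕ) : ℕ :=
  if p.Prime then ((tv e l c : ZMod p)⁻¹).val else 0

private theorem u_def_Irr {D n e l : ℕ} {p : (Fin n → ℕ) → ℕ}
    {c : Fin (D + 1) → Fin (D + 1) → (Fin n → ℕ) → ℕ} (hp : DFun n p)
    (hc : ∀ i j, DFun n (c i j)) :
    DFun n (fun v => u_Irr (p v) e l (fun i j => c i j v)) :=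
  DFun.comp2 (g := fun q t => if q.Prime then ((t : ZMod q)⁻¹).val else 0) PtC.inv_def hp
    (tv_def_Irr hc)

private theorem u_mul_Irr {D p e l : ℕ} (hp : p.Prime) {c : Fin (D + 1) → Fin (D + 1) → ℕ}
    (h : ¬ p ∣ tv e l c) : u_Irr p e l c * tv e l c ≡ 1 [MOD p] := by
  have := Fact.mk hp
  have h0 : ((tv e l c : ℕ) : ZMod p) ≠ 0 := fun h' => h ((ZMod.natCast_eq_zero_iff _ p).1 h')
  rw [← ZMod.natCast_eq_natCast_iff]
  unfold u_Irr
  rw [if_pos hp]
  push_cast
  rw [ZMod.natCast_zmod_val, inv_mul_cancel₀ h0]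

private theorem u_nd_Irr {D p e l : ℕ} (hp : p.Prime) {c : Fin (D + 1) → Fin (D + 1) → ℕ}
    (h : ¬ p ∣ tv e l c) : ¬ p ∣ u_Irr p e l c := by
  intro h1
  have h2 := u_mul_Irr hp h
  have h3 : p ∣ u_Irr p e l c * tv e l c := Dvd.dvd.mul_right h1 _
  have h4 : 1 ≡ 0 [MOD p] := h2.symm.trans ((Nat.modEq_zero_iff_dvd).2 h3)
  exact hp.one_lt.ne' (Nat.dvd_one.1 ((Nat.modEq_zero_iff_dvd).1 h4))

private theorem lc_def_Irr {D n e l : ℕ} {u : (Fin n → ℕ) → ℕ}
    {c : Fin (D + 1) → Fin (D + 1) → (Fin n → ℕ) → ℕ} (hu : DFun n u)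
    (hc : ∀ i j, DFun n (c i j)) (a b : Fin (e + 1)) :
    DFun n (fun v => lc e (u v) l (fun i j => c i j v) a b) := by
  unfold lc
  refine hu.mul (DFun.finSum _ fun i => DFun.finSum _ fun j => ?_)
  by_cases h : (i : ℕ) + j = a + b ∧ (a : ℕ) ≤ i
  · simp only [if_pos h]
    exact ((hc i j).mul (DFun.const _)).mul (DFun.const _)
  · simp only [if_neg h]
    exact DFun.const 0

private theorem cd_ex_Irr {D p : ℕ} (hp : p.Prime) (hD : 2 * D < p)
    {c : Fin (D + 1) → Fin (D + 1) → ℕ} (h : AI p c) :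
    ∃ e ∈ range (2 * D), ∃ l ∈ range (D + 1), Cd_Irr p (e + 1) l c := by
  obtain ⟨hp', hI⟩ := h
  have := Fact.mk hp
  have hchar : CharP (AlgebraicClosure (ZMod p)) p := inferInstance
  have hz : ∀ m : ℕ, p ∣ m → ((m : ℕ) : AlgebraicClosure (ZMod p)) = 0 := fun m hm =>
    (CharP.cast_eq_zero_iff (AlgebraicClosure (ZMod p)) p m).2 hm
  have hzf : ∀ m : ℕ, ((m : ℕ) : AlgebraicClosure (ZMod p)) = 0 → p ∣ m := fun m hm =>
    (CharP.cast_eq_zero_iff (AlgebraicClosure (ZMod p)) p m).1 hm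
  -- some coefficient of positive degree is not divisible by `p`
  have h1 : ∃ m : ℕ, m < 2 * D + 1 ∧ ∃ i j : Fin (D + 1), (i : ℕ) + j = m ∧ 0 < m ∧
      ¬ p ∣ c i j := by
    by_contra hne
    push Not at hne
    have h2 : ∀ i j : Fin (D + 1), 0 < (i : ℕ) + j → p ∣ c i j := by
      intro i j hij
      exact hne ((i : ℕ) + j) (by omega) i j rfl hij
    have h3 : bp (AlgebraicClosure (ZMod p)) c =
        C (C ((c 0 0 : ℕ) : AlgebraicClosure (ZMod p))) := by
      refine Polynomial.ext fun j => Polynomial.ext fun i => ?_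
      unfold bp
      rw [bq_coeff, coeff_C]
      by_cases hj : j = 0
      · rw [if_pos hj, coeff_C]
        by_cases hi : i = 0
        · subst hj
          subst hi
          rw [if_pos rfl, dif_pos ⟨Nat.succ_pos _, Nat.succ_pos _⟩]
          rfl
        · rw [if_neg hi]
          split_ifs with h4
          · refine hz _ (h2 ⟨i, h4.1⟩ ⟨j, h4.2⟩ ?_)
            change 0 < i + j
            omega
          · rfl
      · rw [if_neg hj, coeff_zero]
        split_ifs with h4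
        · refine hz _ (h2 ⟨i, h4.1⟩ ⟨j, h4.2⟩ ?_)
          change 0 < i + j
          omega
        · rfl
    by_cases h5 : p ∣ c 0 0
    · refine hI.ne_zero ?_
      rw [h3, hz _ h5, map_zero, map_zero]
    · refine hI.not_isUnit ?_
      rw [h3]
      exact ((IsUnit.mk0 _ fun h6 => h5 (hzf _ h6)).map C).map C
  -- the greatest such degree
  obtain ⟨m0, hm0, hm0'⟩ := h1
  let T : Finset ℕ := {m ∈ range (2 * D + 1) | ∃ i j : Fin (D + 1), (i : ℕ) + j = m ∧ 0 < m ∧
    ¬ p ∣ c i j}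
  have hT : T.Nonempty := ⟨m0, by
    rw [Finset.mem_filter, Finset.mem_range]
    exact ⟨hm0, hm0'⟩⟩
  have hM := T.max'_mem hT
  rw [Finset.mem_filter, Finset.mem_range] at hM
  obtain ⟨hM1, i, j, hij, hpos, hnd⟩ := hM
  obtain ⟨e, he⟩ : ∃ e, T.max' hT = e + 1 := ⟨T.max' hT - 1, by omega⟩
  rw [he] at hM1 hij
  have hdeg : ∀ i j : Fin (D + 1), e + 1 < (i : ℕ) + j → p ∣ c i j := by
    intro i j h2
    by_contra h3
    have h4 : (i : ℕ) + j ∈ T := by
      rw [Finset.mem_filter, Finset.mem_range]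
      exact ⟨by omega, i, j, rfl, by omega, h3⟩
    have h5 := T.le_max' _ h4
    rw [he] at h5
    omega
  have hex : ∃ i j : Fin (D + 1), (i : ℕ) + j = e + 1 ∧ ¬ p ∣ c i j := ⟨i, j, hij, hnd⟩
  have hl : ∃ l, l ≤ D ∧ ¬ p ∣ tv (e + 1) l c := by
    obtain ⟨l, h2, h3⟩ := tv_ex hp (by omega) hex
    exact ⟨l, h2, h3⟩
  obtain ⟨h6, h7⟩ := Nat.find_spec hl
  refine ⟨e, Finset.mem_range.2 (by omega), Nat.find hl, Finset.mem_range.2 (by omega), hdeg,
    hex, h7, ?_⟩
  intro l' hl'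
  have h8 := Finset.mem_range.1 hl'
  by_contra h9
  exact Nat.find_min hl h8 ⟨by omega, h9⟩

private theorem cd_uniq_Irr {D p e l e' l' : ℕ} {c : Fin (D + 1) → Fin (D + 1) → ℕ}
    (h : Cd_Irr p e l c) (h' : Cd_Irr p e' l' c) : e = e' ∧ l = l' := by
  obtain ⟨h1, ⟨i, j, h2, h3⟩, h4, h5⟩ := h
  obtain ⟨h1', ⟨i', j', h2', h3'⟩, h4', h5'⟩ := h'
  have he : e = e' := by
    rcases lt_trichotomy e e' with h6 | h6 | h6
    · exact absurd (h1 i' j' (by omega)) h3'
    · exact h6
    · exact absurd (h1' i j (by omega)) h3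
  subst he
  refine ⟨rfl, ?_⟩
  rcases lt_trichotomy l l' with h6 | h6 | h6
  · exact absurd (h5' l (Finset.mem_range.2 h6)) h4
  · exact h6
  · exact absurd (h5 l' (Finset.mem_range.2 h6)) h4'

private theorem cn_le_Irr {D B : ℕ} (hB : ∀ (p : ℕ) [Fact p.Prime], D < p →
    ∀ F : (ZMod p)[X][X], Bd D F → Irreducible F → ¬ Irreducible
      (F.map (mapRingHom (algebraMap (ZMod p) (AlgebraicClosure (ZMod p))))) →
    ∀ S : Finset (ZMod p × ZMod p), (∀ z ∈ S, F.evalEval z.1 z.2 = 0) → #S ≤ B)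
    {p : ℕ} (hp : D < p) {c : Fin (D + 1) → Fin (D + 1) → ℕ} (h : Ir p c) (h' : ¬ AI p c) :
    CN p c ≤ B := by
  obtain ⟨hpp, hI⟩ := h
  have := Fact.mk hpp
  have h1 : ¬ Irreducible ((bp (ZMod p) c).map
      (mapRingHom (algebraMap (ZMod p) (AlgebraicClosure (ZMod p))))) := by
    intro h2
    refine h' ⟨hpp, ?_⟩
    unfold bp at h2
    rw [bq_map] at h2
    unfold bp
    simpa only [map_natCast] using h2
  have hinj : Set.InjOn (fun z : ℕ × ℕ => ((z.1 : ZMod p), (z.2 : ZMod p)))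
      ↑({z ∈ range p ×ˢ range p | p ∣ ∑ i, ∑ j, c i j * z.1 ^ (i : ℕ) * z.2 ^ (j : ℕ)} :
        Finset (ℕ × ℕ)) := by
    intro z hz w hw hzw
    rw [Finset.mem_coe, Finset.mem_filter, Finset.mem_product, Finset.mem_range,
      Finset.mem_range] at hz hw
    have h2 := (ZMod.natCast_eq_natCast_iff _ _ _).1 (Prod.mk.inj hzw).1
    have h3 := (ZMod.natCast_eq_natCast_iff _ _ _).1 (Prod.mk.inj hzw).2
    exact Prod.ext (Nat.ModEq.eq_of_lt_of_lt h2 hz.1.1 hw.1.1)
      (Nat.ModEq.eq_of_lt_of_lt h3 hz.1.2 hw.1.2)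
  unfold CN
  rw [← Finset.card_image_of_injOn hinj]
  refine hB p hp (bp (ZMod p) c) (bq_bd _) hI h1 _ fun z hz => ?_
  obtain ⟨w, hw, rfl⟩ := Finset.mem_image.1 hz
  rw [Finset.mem_filter] at hw
  unfold bp
  rw [bq_eval]
  have h2 := (ZMod.natCast_eq_zero_iff _ _).2 hw.2
  push_cast at h2
  exact h2

theorem irr_def (H : CurveHyp) {D n : ℕ} {p : (Fin n → ℕ) → ℕ}
    {c : Fin (D + 1) → Fin (D + 1) → (Fin n → ℕ) → ℕ} (hp : DFun n p)
    (hc : ∀ i j, DFun n (c i j)) :
    DFun n (fun v => if Ir (p v) (fun i j => c i j v) then CN (p v) (fun i j => c i j v) else 0) := by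
  choose Cc hCc using fun e : ℕ => H (e + 1) e.succ_pos
  obtain ⟨B, hB⟩ := conj D
  obtain ⟨C0, hC0⟩ : ∃ C0 : ℕ, C0 = 2 * D + ∑ e ∈ range (2 * D), Cc e := ⟨_, rfl⟩
  -- small primes
  have d1 : DFun n (fun v => ∑ m ∈ range (C0 + 1), if p v = m then
      CN m (fun i j => c i j v) else 0) :=
    DFun.finSum _ fun m => DFun.ite (Delta0.eqFun hp (DFun.const m)) (cn_small m hc)
      (DFun.const 0)
  -- absolutely irreducible polynomials
  have d2 : DFun n (fun v => ∑ z ∈ range (2 * D) ×ˢ range (D + 1),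
      if Cd_Irr (p v) (z.1 + 1) z.2 (fun i j => c i j v) then
        if Gd (z.1 + 1) (Cc z.1) (p v) (lc (z.1 + 1)
            (u_Irr (p v) (z.1 + 1) z.2 (fun i j => c i j v)) z.2 (fun i j => c i j v)) then
          CN (p v) (lc (z.1 + 1)
            (u_Irr (p v) (z.1 + 1) z.2 (fun i j => c i j v)) z.2 (fun i j => c i j v)) else 0
      else 0) := by
    refine DFun.finSum _ fun z => DFun.ite (cd_def_Irr hp hc) ?_ (DFun.const 0)
    exact hCc z.1 n p (fun a b v => lc (z.1 + 1)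
      (u_Irr (p v) (z.1 + 1) z.2 (fun i j => c i j v)) z.2 (fun i j => c i j v) a b) hp
      (fun a b => lc_def_Irr (u_def_Irr hp hc) hc a b)
  -- the other polynomials
  have d3 : DFun n (fun v => min B #{z ∈ range (p v) ×ˢ range (p v) |
      p v ∣ ∑ i, ∑ j, c i j v * z.1 ^ (i : ℕ) * z.2 ^ (j : ℕ)}) := by
    refine dfun_congr (cnt_pairs
      (A := fun x y v => p v ∣ ∑ i, ∑ j, c i j v * x ^ (i : ℕ) * y ^ (j : ℕ)) B hp ?_)
      fun v => congrArg (fun s : Finset (ℕ × ℕ) => min B #s) (by ext z; simp)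
    exact delta_dvd hp.weak.weak (val_def (x := fun w : Fin (n + 2) → ℕ => w 0)
      (y := fun w => w 1) (c := fun i j w => c i j (fun i => w i.succ.succ)) (DFun.proj 0)
      (DFun.proj 1) fun i j => (hc i j).weak.weak)
  have d4 := DFun.ite (ir_def hp hc) (DFun.ite (Delta0.leFun hp (DFun.const C0)) d1
    (DFun.ite (ai_def hp hc) d2 d3)) (DFun.const 0)
  refine dfun_congr d4 fun v => ?_
  by_cases h1 : Ir (p v) (fun i j => c i j v)
  · rw [if_pos h1, if_pos h1]
    by_cases h2 : p v ≤ C0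
    · rw [if_pos h2, Finset.sum_eq_single (p v)]
      · rw [if_pos rfl]
      · intro m _ hm
        rw [if_neg (Ne.symm hm)]
      · intro h3
        exact absurd (Finset.mem_range.2 (Nat.lt_succ_of_le h2)) h3
    · rw [if_neg h2]
      have hprime : (p v).Prime := h1.1
      by_cases h3 : AI (p v) (fun i j => c i j v)
      · rw [if_pos h3]
        obtain ⟨e, he, l, hl, hcd⟩ := cd_ex_Irr hprime (by omega) h3
        have hCe : Cc e < p v := by
          have h4 := Finset.single_le_sum (f := Cc) (fun i _ => Nat.zero_le _) he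
          omega
        rw [Finset.sum_eq_single (e, l)]
        · have hu := u_nd_Irr hprime hcd.2.2.1
          rw [if_pos hcd, if_pos, lc_cn hprime hu hcd.1]
          refine ⟨hCe, ?_, ?_, ?_⟩
          · rw [lc_top]
            exact u_mul_Irr hprime hcd.2.2.1
          · exact lc_deg hcd.1
          · exact lc_ai hu hcd.1 h3
        · rintro ⟨e', l'⟩ _ hne
          rw [if_neg]
          intro h4
          obtain ⟨h5, h6⟩ := cd_uniq_Irr hcd h4
          refine hne ?_
          rw [h6, Nat.succ.inj h5]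
        · intro h4
          exact absurd (Finset.mem_product.2 ⟨he, hl⟩) h4
      · rw [if_neg h3]
        have h4 := cn_le_Irr hB (show D < p v by omega) h1 h3
        unfold CN at h4 ⊢
        rw [min_eq_right h4]
  · rw [if_neg h1, if_neg h1]

end Pool.Agent.CvD
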