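import Pool.Agent.CvD.Irr

/-!
# All polynomials modulo primes

`Wt e p c`: modulo `p` the degree in `x` is at most `a`, the degree in `y` at most `b`, for some `a + b = e`.

* `cn_mul`: `F = G H` modulo the prime `p`: a pair is a zero of `F` if and only if it is a zero of `G` or `H`:
  `#V(F) + #(V(G) ∩ V(H)) = #V(G) + #V(H)`. `cn_dvd`: if `G ∣ H` then `V(F) = V(H)`.
* `rec_def`: induction on `e`. If `F = 0` modulo `p`, `CN = p ^ 2`. If `F` is a nonzero constant modulo `p`,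
  `CN = 0`; this is the case `e = 0`. `F` irreducible: `irr_def`. Otherwise there are coefficient arrays
  `g`, `h` of numbers `≤ p` with `F = G H`, `G` irreducible, `H` not a unit. `H` satisfies `Wt (e - 1)` (the
  degrees add, `G` has positive degree in `x` or in `y`). If `G ∣ H`, then `CN p c = CN p h`, otherwise
  `G`, `H` are relatively prime, the number of the common zeros is at most `B` (`bez D`), and
  `CN p c = CN p g + CN p h - min B #(common zeros)` (`cnt_pairs`).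
* `cn_prime`: `e = 2 D`, `a = b = D`.
-/

set_option autoImplicit false

namespace Pool.Agent.CvD

open Finset Polynomial Pool.Agent.Grz Pool.Agent.GAvg Pool.Agent.PTr Pool.Agent.MTr
  Pool.Agent.LPC Pool.Agent.ECD Pool.Agent.PRc
open scoped Classical Polynomial.Bivariate

/-- the sum of the degrees in `x` and in `y` modulo `p` is at most `e` -/
def Wt (e p : ℕ) {D : ℕ} (c : Fin (D + 1) → Fin (D + 1) → ℕ) : Prop :=
  ∃ a b, a + b = e ∧ ∀ i j : Fin (D + 1), (a < (i : ℕ) ∨ b < (j : ℕ)) → p ∣ c i j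

/-! ### Counting -/

/-- the value of the polynomial modulo `p` -/
private theorem ev_Rec {D p : ℕ} (c : Fin (D + 1) → Fin (D + 1) → ℕ) (x y : ℕ) :
    (bp (ZMod p) c).evalEval (x : ZMod p) (y : ZMod p) =
      ((∑ i, ∑ j, c i j * x ^ (i : ℕ) * y ^ (j : ℕ) : ℕ) : ZMod p) := by
  unfold bp
  rw [bq_eval]
  push_cast
  rfl

private theorem dvd_Rec {D p : ℕ} (c : Fin (D + 1) → Fin (D + 1) → ℕ) (x y : ℕ) :
    p ∣ ∑ i, ∑ j, c i j * x ^ (i : ℕ) * y ^ (j : ℕ) ↔
      (bp (ZMod p) c).evalEval (x : ZMod p) (y : ZMod p) = 0 := by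
  rw [ev_Rec, ZMod.natCast_eq_zero_iff]

private theorem or_Rec {D D' D'' p : ℕ} (hp : p.Prime) {c : Fin (D + 1) → Fin (D + 1) → ℕ}
    {g : Fin (D' + 1) → Fin (D' + 1) → ℕ} {h : Fin (D'' + 1) → Fin (D'' + 1) → ℕ}
    (hc : bp (ZMod p) c = bp (ZMod p) g * bp (ZMod p) h) (x y : ℕ) :
    p ∣ ∑ i, ∑ j, c i j * x ^ (i : ℕ) * y ^ (j : ℕ) ↔
      p ∣ (∑ i, ∑ j, g i j * x ^ (i : ℕ) * y ^ (j : ℕ)) ∨
        p ∣ ∑ i, ∑ j, h i j * x ^ (i : ℕ) * y ^ (j : ℕ) := by
  have := Fact.mk hp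
  rw [dvd_Rec, dvd_Rec, dvd_Rec, hc, evalEval_mul, mul_eq_zero]

theorem cn_mul {D D' D'' p : ℕ} (hp : p.Prime) {c : Fin (D + 1) → Fin (D + 1) → ℕ}
    {g : Fin (D' + 1) → Fin (D' + 1) → ℕ} {h : Fin (D'' + 1) → Fin (D'' + 1) → ℕ}
    (hc : bp (ZMod p) c = bp (ZMod p) g * bp (ZMod p) h) :
    CN p c + #{z ∈ range p ×ˢ range p | (p ∣ ∑ i, ∑ j, g i j * z.1 ^ (i : ℕ) * z.2 ^ (j : ℕ)) ∧
      p ∣ ∑ i, ∑ j, h i j * z.1 ^ (i : ℕ) * z.2 ^ (j : ℕ)} = CN p g + CN p h := by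
  unfold CN
  rw [← card_union_add_card_inter {z ∈ range p ×ˢ range p |
    p ∣ ∑ i, ∑ j, g i j * z.1 ^ (i : ℕ) * z.2 ^ (j : ℕ)}, ← filter_or, ← filter_and]
  congr 2
  ext z
  simp only [mem_filter, mem_product, mem_range]
  rw [or_Rec hp hc]

theorem cn_dvd {D D' D'' p : ℕ} (hp : p.Prime) {c : Fin (D + 1) → Fin (D + 1) → ℕ}
    {g : Fin (D' + 1) → Fin (D' + 1) → ℕ} {h : Fin (D'' + 1) → Fin (D'' + 1) → ℕ}
    (hc : bp (ZMod p) c = bp (ZMod p) g * bp (ZMod p) h)
    (hd : bp (ZMod p) g ∣ bp (ZMod p) h) : CN p c = CN p h := by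
  unfold CN
  congr 1
  ext z
  simp only [mem_filter, mem_product, mem_range]
  refine and_congr_right fun _ => ?_
  rw [or_Rec hp hc]
  refine ⟨fun h1 => h1.elim (fun h2 => ?_) id, Or.inr⟩
  rw [dvd_Rec] at h2 ⊢
  obtain ⟨q, hq⟩ := hd
  rw [hq, evalEval_mul, h2, zero_mul]

private theorem cn_le_Rec {D p : ℕ} (c : Fin (D + 1) → Fin (D + 1) → ℕ) : CN p c ≤ p ^ 2 := by
  unfold CN
  refine (card_filter_le _ _).trans ?_
  rw [card_product, card_range, pow_two]

private theorem cn_zero_Rec {D p : ℕ} {c : Fin (D + 1) → Fin (D + 1) → ℕ}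
    (h : bp (ZMod p) c = 0) : CN p c = p ^ 2 := by
  unfold CN
  rw [filter_true_of_mem, card_product, card_range, pow_two]
  intro z _
  rw [dvd_Rec, h]
  simp

private theorem cn_unit_Rec {D p : ℕ} (hp : p.Prime) {c : Fin (D + 1) → Fin (D + 1) → ℕ}
    (h : IsUnit (bp (ZMod p) c)) : CN p c = 0 := by
  have := Fact.mk hp
  unfold CN
  rw [card_eq_zero, filter_eq_empty_iff]
  intro z _
  rw [dvd_Rec]
  obtain ⟨q, hq⟩ := h.exists_right_inv
  intro h1
  have h2 := congrArg (fun G : (ZMod p)[X][Y] => G.evalEval (z.1 : ZMod p) (z.2 : ZMod p)) hq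
  simp only [evalEval_mul, h1, zero_mul] at h2
  simp at h2

/-- few common zeros -/
private theorem bez_Rec {D B p : ℕ} (hp : p.Prime)
    (hB : ∀ (K : Type) [Field K] (F G : K[X][Y]), Bd D F → Bd D G →
      IsRelPrime F G → ∀ S : Finset (K × K),
        (∀ z ∈ S, F.evalEval z.1 z.2 = 0 ∧ G.evalEval z.1 z.2 = 0) → #S ≤ B)
    {g h : Fin (D + 1) → Fin (D + 1) → ℕ}
    (hgh : IsRelPrime (bp (ZMod p) g) (bp (ZMod p) h)) :
    #{z ∈ range p ×ˢ range p | (p ∣ ∑ i, ∑ j, g i j * z.1 ^ (i : ℕ) * z.2 ^ (j : ℕ)) ∧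
      p ∣ ∑ i, ∑ j, h i j * z.1 ^ (i : ℕ) * z.2 ^ (j : ℕ)} ≤ B := by
  have := Fact.mk hp
  have h1 := hB (ZMod p) (bp (ZMod p) g) (bp (ZMod p) h) (bq_bd _) (bq_bd _) hgh
    ({z ∈ range p ×ˢ range p | (p ∣ ∑ i, ∑ j, g i j * z.1 ^ (i : ℕ) * z.2 ^ (j : ℕ)) ∧
      p ∣ ∑ i, ∑ j, h i j * z.1 ^ (i : ℕ) * z.2 ^ (j : ℕ)}.image
      fun z : ℕ × ℕ => ((z.1 : ZMod p), (z.2 : ZMod p))) ?_
  · rwa [card_image_of_injOn] at h1
    intro z hz w hw hzw
    rw [mem_coe, mem_filter, mem_product, mem_range, mem_range] at hz hw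
    have h2 := congrArg (fun t : ZMod p × ZMod p => t.1.val) hzw
    have h3 := congrArg (fun t : ZMod p × ZMod p => t.2.val) hzw
    simp only [ZMod.val_natCast] at h2 h3
    rw [Nat.mod_eq_of_lt hz.1.1, Nat.mod_eq_of_lt hw.1.1] at h2
    rw [Nat.mod_eq_of_lt hz.1.2, Nat.mod_eq_of_lt hw.1.2] at h3
    exact Prod.ext h2 h3
  · intro z hz
    rw [mem_image] at hz
    obtain ⟨w, hw, rfl⟩ := hz
    rw [mem_filter, dvd_Rec, dvd_Rec] at hw
    exact hw.2

/-! ### Degrees -/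

private theorem wt_iff_Rec {D e p : ℕ} {c : Fin (D + 1) → Fin (D + 1) → ℕ} :
    Wt e p c ↔ ∃ a b, a + b = e ∧ dX (bp (ZMod p) c) ≤ a ∧ (bp (ZMod p) c).natDegree ≤ b := by
  unfold Wt
  refine exists_congr fun a => exists_congr fun b => and_congr_right fun _ => ?_
  constructor
  · intro h
    constructor
    · rw [dX_le]
      intro j
      rw [natDegree_le_iff_coeff_eq_zero]
      intro i hi
      unfold bp
      rw [bq_coeff]
      split_ifs with h1
      · exact (ZMod.natCast_eq_zero_iff _ _).2 (h _ _ (Or.inl hi))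
      · rfl
    · rw [natDegree_le_iff_coeff_eq_zero]
      intro j hj
      ext i
      unfold bp
      rw [bq_coeff, coeff_zero]
      split_ifs with h1
      · exact (ZMod.natCast_eq_zero_iff _ _).2 (h _ _ (Or.inr hj))
      · rfl
  · rintro ⟨h1, h2⟩ i j hij
    have h3 : ((bp (ZMod p) c).coeff j).coeff i = 0 := by
      rcases hij with hij | hij
      · rw [dX_le] at h1
        exact natDegree_le_iff_coeff_eq_zero.1 (h1 j) _ hij
      · rw [natDegree_le_iff_coeff_eq_zero.1 h2 _ hij, coeff_zero]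
    unfold bp at h3
    rw [bq_coeff, dif_pos ⟨i.2, j.2⟩] at h3
    exact (ZMod.natCast_eq_zero_iff _ _).1 h3

/-- the second factor is smaller -/
private theorem wt_right_Rec {D e p : ℕ} (hp : p.Prime) {c g h : Fin (D + 1) → Fin (D + 1) → ℕ}
    (hc : bp (ZMod p) g * bp (ZMod p) h = bp (ZMod p) c) (h0 : bp (ZMod p) c ≠ 0)
    (hg : ¬ IsUnit (bp (ZMod p) g)) (hw : Wt (e + 1) p c) : Wt e p h := by
  have := Fact.mk hp
  have hg0 : bp (ZMod p) g ≠ 0 := by
    intro h1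
    rw [h1, zero_mul] at hc
    exact h0 hc.symm
  have hh0 : bp (ZMod p) h ≠ 0 := by
    intro h1
    rw [h1, mul_zero] at hc
    exact h0 hc.symm
  have h1 := nonunit_pos hg0 hg
  rw [wt_iff_Rec] at hw ⊢
  obtain ⟨a, b, hab, ha, hb⟩ := hw
  rw [← hc, dX_mul hg0 hh0] at ha
  rw [← hc, natDegree_mul hg0 hh0] at hb
  rcases Nat.eq_zero_or_pos (dX (bp (ZMod p) g)) with h2 | h2
  · exact ⟨a, b - 1, by omega, by omega, by omega⟩
  · exact ⟨a - 1, b, by omega, by omega, by omega⟩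

private theorem wt_zero_Rec {D p : ℕ} (hp : p.Prime) {c : Fin (D + 1) → Fin (D + 1) → ℕ}
    (h0 : bp (ZMod p) c ≠ 0) (hw : Wt 0 p c) : IsUnit (bp (ZMod p) c) := by
  have := Fact.mk hp
  by_contra h1
  have h2 := nonunit_pos h0 h1
  obtain ⟨a, b, hab, ha, hb⟩ := wt_iff_Rec.1 hw
  omega

/-! ### Factors -/

private theorem arr_Rec {D p : ℕ} (hp : p.Prime) {F : (ZMod p)[X][Y]} (hF : Bd D F) :
    ∃ g : Fin (D + 1) → Fin (D + 1) → ℕ, (∀ i j, g i j ≤ p) ∧ bp (ZMod p) g = F := by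
  have := Fact.mk hp
  obtain ⟨x, hx⟩ := bq_surj hF
  refine ⟨fun i j => (x (i, j)).val, fun i j => (ZMod.val_lt _).le, ?_⟩
  rw [← hx]
  unfold bp
  congr 1
  funext i
  exact ZMod.natCast_zmod_val _

/-- `bp g * bp h = bp c` modulo the prime `p` -/
private def Ml (p : ℕ) {D : ℕ} (g h c : Fin (D + 1) → Fin (D + 1) → ℕ) : Prop :=
  ∃ _ : p.Prime, bp (ZMod p) g * bp (ZMod p) h = bp (ZMod p) c

/-- not a unit modulo the prime `p` -/
private def Nu (p : ℕ) {D : ℕ} (c : Fin (D + 1) → Fin (D + 1) → ℕ) : Prop :=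
  ∃ _ : p.Prime, ¬ IsUnit (bp (ZMod p) c)

/-- `bp g` divides `bp h` modulo the prime `p` -/
private def Dv (p : ℕ) {D : ℕ} (g h : Fin (D + 1) → Fin (D + 1) → ℕ) : Prop :=
  ∃ _ : p.Prime, bp (ZMod p) g ∣ bp (ZMod p) h

private theorem factor_Rec {D p : ℕ} (hp : p.Prime) {c : Fin (D + 1) → Fin (D + 1) → ℕ}
    (h0 : bp (ZMod p) c ≠ 0) (h1 : Nu p c) (h2 : ¬ Ir p c) :
    ∃ g h : Fin (D + 1) → Fin (D + 1) → ℕ, (∀ i j, g i j ≤ p) ∧ (∀ i j, h i j ≤ p) ∧
      Ml p g h c ∧ Ir p g ∧ Nu p h := by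
  have := Fact.mk hp
  obtain ⟨_, h1⟩ := h1
  have h2 : ¬ Irreducible (bp (ZMod p) c) := fun h => h2 ⟨hp, h⟩
  obtain ⟨G, hG, H, hH⟩ := WfDvdMonoid.exists_irreducible_factor h1 h0
  have hHu : ¬ IsUnit H := by
    intro hu
    apply h2
    rw [hH]
    exact (irreducible_mul_isUnit hu).2 hG
  obtain ⟨g, hg, hg'⟩ := arr_Rec hp (bd_left hH.symm h0 (bq_bd _))
  obtain ⟨h, hh, hh'⟩ := arr_Rec hp (bd_left ((mul_comm H G).trans hH.symm) h0 (bq_bd _))
  refine ⟨g, h, hg, hh, ⟨hp, ?_⟩, ⟨hp, ?_⟩, ⟨hp, ?_⟩⟩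
  · rw [hg', hh', hH]
  · rw [hg']
    exact hG
  · rw [hh']
    exact hHu

private theorem dv_iff_Rec {D p : ℕ} {g h : Fin (D + 1) → Fin (D + 1) → ℕ} :
    Dv p g h ↔ ∃ q : Fin (D + 1) × Fin (D + 1) → ℕ, (∀ i, q i ≤ p) ∧
      Ml p g (fun i j => q (i, j)) h := by
  constructor
  · rintro ⟨hp, Q, hQ⟩
    have := Fact.mk hp
    by_cases h0 : bp (ZMod p) h = 0
    · refine ⟨fun _ => 0, fun _ => Nat.zero_le _, hp, ?_⟩
      have h1 : bp (ZMod p) (fun _ _ : Fin (D + 1) => 0) = 0 := by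
        unfold bp bq
        simp
      rw [h0]
      exact (congrArg _ h1).trans (mul_zero _)
    · obtain ⟨q, hq, hq'⟩ := arr_Rec hp (bd_left ((mul_comm Q _).trans hQ.symm) h0 (bq_bd _))
      refine ⟨fun i => q i.1 i.2, fun i => hq _ _, hp, ?_⟩
      rw [hQ, ← hq']
  · rintro ⟨q, _, hp, h1⟩
    exact ⟨hp, _, h1.symm⟩

private theorem cn_fact_Rec {D B p : ℕ}
    (hB : ∀ (K : Type) [Field K] (F G : K[X][Y]), Bd D F → Bd D G →
      IsRelPrime F G → ∀ S : Finset (K × K),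
        (∀ z ∈ S, F.evalEval z.1 z.2 = 0 ∧ G.evalEval z.1 z.2 = 0) → #S ≤ B)
    {c g h : Fin (D + 1) → Fin (D + 1) → ℕ} (h1 : Ml p g h c) (h2 : Ir p g) :
    CN p c = if Dv p g h then CN p h else CN p g + CN p h -
      min B #{z ∈ range p ×ˢ range p | (p ∣ ∑ i, ∑ j, g i j * z.1 ^ (i : ℕ) * z.2 ^ (j : ℕ)) ∧
        p ∣ ∑ i, ∑ j, h i j * z.1 ^ (i : ℕ) * z.2 ^ (j : ℕ)} := by
  obtain ⟨hp, h1⟩ := h1
  have := Fact.mk hp
  split_ifs with h3
  · obtain ⟨_, h3⟩ := h3
    exact cn_dvd hp h1.symm h3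
  · have h3 : ¬ bp (ZMod p) g ∣ bp (ZMod p) h := fun h => h3 ⟨hp, h⟩
    obtain ⟨_, h2⟩ := h2
    have h4 := cn_mul hp h1.symm
    rw [min_eq_right (bez_Rec hp hB (h2.isRelPrime_iff_not_dvd.2 h3)), ← h4, Nat.add_sub_cancel]

/-! ### Definability -/

section defs

variable {D n : ℕ} {p : (Fin n → ℕ) → ℕ} {c g h : Fin (D + 1) → Fin (D + 1) → (Fin n → ℕ) → ℕ}

private theorem wt_def_Rec (e : ℕ) (hp : DFun n p) (hc : ∀ i j, DFun n (c i j)) :
    Delta0 n (fun v => Wt e (p v) (fun i j => c i j v)) := by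
  have h1 : Delta0 n (fun v => ∃ a ∈ Finset.range (e + 1), ∀ i j : Fin (D + 1),
      (a < (i : ℕ) ∨ e - a < (j : ℕ)) → p v ∣ c i j v) := by
    refine Delta0.finEx _ fun a => Delta0.allOf fun i => Delta0.allOf fun j => ?_
    exact ((Delta0.ltFun (DFun.const a) (DFun.const (i : ℕ))).or
      (Delta0.ltFun (DFun.const (e - a)) (DFun.const (j : ℕ)))).imp (delta_dvd hp (hc i j))
  refine h1.of_iff fun v => ?_
  constructor
  · rintro ⟨a, b, hab, h⟩
    refine ⟨a, Finset.mem_range.2 (by omega), fun i j hij => h i j ?_⟩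
    rcases hij with hij | hij
    · exact Or.inl hij
    · exact Or.inr (by omega)
  · rintro ⟨a, ha, h⟩
    exact ⟨a, e - a, by have := Finset.mem_range.1 ha; omega, h⟩

private theorem zr_def_Rec (hp : DFun n p) (hc : ∀ i j, DFun n (c i j)) :
    Delta0 n (fun v => bp (ZMod (p v)) (fun i j => c i j v) = 0) := by
  have h1 : Delta0 n (fun v => ∀ i j : Fin (D + 1), p v ∣ c i j v) :=
    Delta0.allOf fun i => Delta0.allOf fun j => delta_dvd hp (hc i j)
  refine h1.of_iff fun v => ?_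
  have h2 : bq (K := ZMod (p v)) (D := D) (fun _ => 0) = 0 := by
    unfold bq
    simp
  constructor
  · intro h i j
    have h3 := congrFun (bq_inj (h.trans h2.symm)) (i, j)
    exact (ZMod.natCast_eq_zero_iff _ _).1 h3
  · intro h
    refine Eq.trans ?_ h2
    unfold bp
    congr 1
    funext i
    exact (ZMod.natCast_eq_zero_iff _ _).2 (h _ _)

private theorem nu_def_Rec (hp : DFun n p) (hc : ∀ i j, DFun n (c i j)) :
    Delta0 n (fun v => Nu (p v) (fun i j => c i j v)) := by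
  refine (prd_delta' (nu_prd D) hp (a := fun i v => c i.1 i.2 v) fun i => hc _ _).of_iff
    fun v => ?_
  exact Iff.rfl

private theorem ml_def_Rec (hp : DFun n p) (hg : ∀ i j, DFun n (g i j))
    (hh : ∀ i j, DFun n (h i j)) (hc : ∀ i j, DFun n (c i j)) :
    Delta0 n (fun v => Ml (p v) (fun i j => g i j v) (fun i j => h i j v)
      (fun i j => c i j v)) := by
  refine (prd_delta' (mul_prd D) hp (a := Sum.elim (fun i v => g i.1 i.2 v)
    (Sum.elim (fun i v => h i.1 i.2 v) (fun i v => c i.1 i.2 v))) ?_).of_iff fun v => ?_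
  · rintro (i | i | i)
    · exact hg _ _
    · exact hh _ _
    · exact hc _ _
  · exact Iff.rfl

private theorem dv_def_Rec (hp : DFun n p) (hg : ∀ i j, DFun n (g i j))
    (hh : ∀ i j, DFun n (h i j)) :
    Delta0 n (fun v => Dv (p v) (fun i j => g i j v) (fun i j => h i j v)) := by
  refine (Delta0.bexState (κ := Fin (D + 1) × Fin (D + 1)) hp
    (P := fun q v => Ml (p v) (fun i j => g i j v) (fun i j => q (i, j))
      (fun i j => h i j v)) ?_).of_iff fun v => dv_iff_Rec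
  intro m x v hx hv
  exact ml_def_Rec (p := fun w => p fun i => v i w) (g := fun i j w => g i j fun i => v i w)
    (h := fun i j => x (i, j)) (c := fun i j w => h i j fun i => v i w) (hp.comp hv)
    (fun i j => (hg i j).comp hv) (fun i j => hx _) (fun i j => (hh i j).comp hv)

private theorem common_def_Rec (B : ℕ) (hp : DFun n p) (hg : ∀ i j, DFun n (g i j))
    (hh : ∀ i j, DFun n (h i j)) :
    DFun n (fun v => min B #{z ∈ range (p v) ×ˢ range (p v) |
      (p v ∣ ∑ i, ∑ j, g i j v * z.1 ^ (i : ℕ) * z.2 ^ (j : ℕ)) ∧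
        p v ∣ ∑ i, ∑ j, h i j v * z.1 ^ (i : ℕ) * z.2 ^ (j : ℕ)}) := by
  refine ECD.dfun_congr (cnt_pairs (A := fun a b v =>
    (p v ∣ ∑ i, ∑ j, g i j v * a ^ (i : ℕ) * b ^ (j : ℕ)) ∧
      p v ∣ ∑ i, ∑ j, h i j v * a ^ (i : ℕ) * b ^ (j : ℕ)) B hp ?_) fun v => by congr!
  exact (delta_dvd hp.weak.weak (val_def (DFun.proj 0) (DFun.proj 1)
    fun i j => (hg i j).weak.weak)).and (delta_dvd hp.weak.weak (val_def (DFun.proj 0)
      (DFun.proj 1) fun i j => (hh i j).weak.weak))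

end defs

/-- definition of a function by a choice of auxiliary numbers -/
private theorem choose_Rec {κ : Type} [Fintype κ] {n : ℕ} {f b B : (Fin n → ℕ) → ℕ}
    {C : (κ → ℕ) → (Fin n → ℕ) → Prop} {g : (κ → ℕ) → (Fin n → ℕ) → ℕ} (hB : DFun n B)
    (hfB : ∀ v, f v ≤ B v) (hb : DFun n b)
    (hC : ∀ (m : ℕ) (x : κ → (Fin m → ℕ) → ℕ) (v : Fin n → (Fin m → ℕ) → ℕ),
      (∀ k, DFun m (x k)) → (∀ i, DFun m (v i)) →
        Delta0 m (fun w => C (fun k => x k w) (fun i => v i w)))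
    (hg : ∀ (m : ℕ) (x : κ → (Fin m → ℕ) → ℕ) (v : Fin n → (Fin m → ℕ) → ℕ),
      (∀ k, DFun m (x k)) → (∀ i, DFun m (v i)) →
        DFun m (fun w => g (fun k => x k w) (fun i => v i w)))
    (hex : ∀ v, ∃ x, (∀ k, x k ≤ b v) ∧ C x v)
    (heq : ∀ v x, (∀ k, x k ≤ b v) → C x v → f v = g x v) : DFun n f := by
  refine DFun.ofGraph hB hfB ?_
  have h1 := Delta0.bexState (κ := κ) (n := n + 1) (b := fun w => b fun i => w i.succ) hb.weak
    (P := fun x w => C x (fun i => w i.succ) ∧ w 0 = g x fun i => w i.succ) (by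
      intro m x v hx hv
      exact (hC m x (fun i => v i.succ) hx fun i => hv _).and
        (Delta0.eqFun (hv 0) (hg m x (fun i => v i.succ) hx fun i => hv _)))
  refine h1.of_iff fun w => ?_
  constructor
  · intro h
    obtain ⟨x, hx, hc⟩ := hex fun i => w i.succ
    exact ⟨x, hx, hc, h.trans (heq _ x hx hc)⟩
  · rintro ⟨x, hx, hc, h⟩
    exact h.trans (heq _ x hx hc).symm

/-- the part of the polynomials which are not `0`, not units and not irreducible -/
private def Cs (e p : ℕ) {D : ℕ} (c : Fin (D + 1) → Fin (D + 1) → ℕ) : Prop :=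
  p.Prime ∧ Wt (e + 1) p c ∧ bp (ZMod p) c ≠ 0 ∧ Nu p c ∧ ¬ Ir p c

private theorem cs_def_Rec (e : ℕ) {D n : ℕ} {p : (Fin n → ℕ) → ℕ}
    {c : Fin (D + 1) → Fin (D + 1) → (Fin n → ℕ) → ℕ} (hp : DFun n p)
    (hc : ∀ i j, DFun n (c i j)) : Delta0 n (fun v => Cs e (p v) fun i j => c i j v) :=
  (delta_prime hp).and ((wt_def_Rec (e + 1) hp hc).and ((zr_def_Rec hp hc).not.and
    ((nu_def_Rec hp hc).and (ir_def hp hc).not)))

private theorem step_Rec (H : CurveHyp) (e : ℕ) {D : ℕ}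
    (ih : ∀ {n : ℕ} {p : (Fin n → ℕ) → ℕ} {c : Fin (D + 1) → Fin (D + 1) → (Fin n → ℕ) → ℕ},
      DFun n p → (∀ i j, DFun n (c i j)) →
      DFun n (fun v => if (p v).Prime ∧ Wt e (p v) (fun i j => c i j v) then
        CN (p v) (fun i j => c i j v) else 0)) {n : ℕ} {p : (Fin n → ℕ) → ℕ}
    {c : Fin (D + 1) → Fin (D + 1) → (Fin n → ℕ) → ℕ} (hp : DFun n p)
    (hc : ∀ i j, DFun n (c i j)) :
    DFun n (fun v => if Cs e (p v) (fun i j => c i j v) then
      CN (p v) (fun i j => c i j v) else 0) := by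
  obtain ⟨B, hB⟩ := bez D
  refine choose_Rec (κ := (Fin (D + 1) × Fin (D + 1)) ⊕ (Fin (D + 1) × Fin (D + 1)))
    (B := fun v => p v ^ 2) (b := p)
    (C := fun x v => Cs e (p v) (fun i j => c i j v) →
      Ml (p v) (fun i j => x (Sum.inl (i, j))) (fun i j => x (Sum.inr (i, j)))
        (fun i j => c i j v) ∧ Ir (p v) (fun i j => x (Sum.inl (i, j))))
    (g := fun x v => if Cs e (p v) (fun i j => c i j v) then
      (if Dv (p v) (fun i j => x (Sum.inl (i, j))) (fun i j => x (Sum.inr (i, j))) then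
        (if (p v).Prime ∧ Wt e (p v) (fun i j => x (Sum.inr (i, j))) then
          CN (p v) (fun i j => x (Sum.inr (i, j))) else 0) else
        (if Ir (p v) (fun i j => x (Sum.inl (i, j))) then
          CN (p v) (fun i j => x (Sum.inl (i, j))) else 0) +
        (if (p v).Prime ∧ Wt e (p v) (fun i j => x (Sum.inr (i, j))) then
          CN (p v) (fun i j => x (Sum.inr (i, j))) else 0) -
        min B #{z ∈ range (p v) ×ˢ range (p v) |
          (p v ∣ ∑ i, ∑ j, x (Sum.inl (i, j)) * z.1 ^ (i : ℕ) * z.2 ^ (j : ℕ)) ∧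
            p v ∣ ∑ i, ∑ j, x (Sum.inr (i, j)) * z.1 ^ (i : ℕ) * z.2 ^ (j : ℕ)}) else 0)
    (DFun.powConst hp 2) ?_ hp ?_ ?_ ?_ ?_
  · intro v
    split_ifs
    · exact cn_le_Rec _
    · exact Nat.zero_le _
  · intro m x v hx hv
    exact (cs_def_Rec (p := fun w => p fun i => v i w) (c := fun i j w => c i j fun i => v i w) e
      (hp.comp hv) fun i j => (hc i j).comp hv).imp
      ((ml_def_Rec (p := fun w => p fun i => v i w) (g := fun i j => x (Sum.inl (i, j)))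
        (h := fun i j => x (Sum.inr (i, j))) (c := fun i j w => c i j fun i => v i w)
        (hp.comp hv) (fun i j => hx _) (fun i j => hx _) fun i j => (hc i j).comp hv).and
      (ir_def (p := fun w => p fun i => v i w) (c := fun i j => x (Sum.inl (i, j)))
        (hp.comp hv) fun i j => hx _))
  · intro m x v hx hv
    have h1 := cs_def_Rec (p := fun w => p fun i => v i w)
      (c := fun i j w => c i j fun i => v i w) e (hp.comp hv) fun i j => (hc i j).comp hv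
    have h2 := dv_def_Rec (p := fun w => p fun i => v i w) (g := fun i j => x (Sum.inl (i, j)))
      (h := fun i j => x (Sum.inr (i, j))) (hp.comp hv) (fun i j => hx _) fun i j => hx _
    have h3 := ih (p := fun w => p fun i => v i w) (c := fun i j => x (Sum.inr (i, j)))
      (hp.comp hv) fun i j => hx _
    have h4 := irr_def H (p := fun w => p fun i => v i w) (c := fun i j => x (Sum.inl (i, j)))
      (hp.comp hv) fun i j => hx _
    have h5 := common_def_Rec (p := fun w => p fun i => v i w)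
      (g := fun i j => x (Sum.inl (i, j))) (h := fun i j => x (Sum.inr (i, j))) B
      (hp.comp hv) (fun i j => hx _) fun i j => hx _
    exact DFun.ite h1 (DFun.ite h2 h3 ((h4.add h3).sub h5)) (DFun.const 0)
  · intro v
    by_cases h : Cs e (p v) (fun i j => c i j v)
    · obtain ⟨h1, h2, h3, h4, h5⟩ := id h
      obtain ⟨g, h', hg, hh, h6, h7, h8⟩ := factor_Rec h1 h3 h4 h5
      refine ⟨Sum.elim (fun i => g i.1 i.2) (fun i => h' i.1 i.2), ?_, fun _ => ⟨h6, h7⟩⟩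
      rintro (i | i)
      · exact hg _ _
      · exact hh _ _
    · exact ⟨fun _ => 0, fun _ => Nat.zero_le _, fun h1 => absurd h1 h⟩
  · intro v x _ hx
    by_cases h : Cs e (p v) (fun i j => c i j v)
    · obtain ⟨h1, h2⟩ := hx h
      obtain ⟨h3, h4, h5, h6, h7⟩ := id h
      rw [if_pos h, if_pos h]
      have h8 : Wt e (p v) (fun i j => x (Sum.inr (i, j))) := by
        obtain ⟨_, h1⟩ := h1
        obtain ⟨_, h2⟩ := h2
        exact wt_right_Rec h3 h1 h5 h2.not_isUnit h4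
      rw [if_pos (And.intro h3 h8), if_pos h2]
      exact cn_fact_Rec hB h1 h2
    · rw [if_neg h, if_neg h]

theorem rec_def (H : CurveHyp) (e : ℕ) {D n : ℕ} {p : (Fin n → ℕ) → ℕ}
    {c : Fin (D + 1) → Fin (D + 1) → (Fin n → ℕ) → ℕ} (hp : DFun n p)
    (hc : ∀ i j, DFun n (c i j)) :
    DFun n (fun v => if (p v).Prime ∧ Wt e (p v) (fun i j => c i j v) then
      CN (p v) (fun i j => c i j v) else 0) := by
  induction e generalizing n with
  | zero =>
    have h1 := DFun.ite ((delta_prime hp).and (wt_def_Rec 0 hp hc))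
      (DFun.ite (zr_def_Rec hp hc) (DFun.powConst hp 2) (DFun.const 0)) (DFun.const 0)
    refine ECD.dfun_congr h1 fun v => ?_
    split_ifs with h2 h3
    · exact cn_zero_Rec h3
    · exact cn_unit_Rec h2.1 (wt_zero_Rec h2.1 h3 h2.2)
    · rfl
  | succ e ih =>
    have h1 := DFun.ite ((delta_prime hp).and (wt_def_Rec (e + 1) hp hc))
      (DFun.ite (zr_def_Rec hp hc) (DFun.powConst hp 2) (DFun.ite (nu_def_Rec hp hc)
        (DFun.ite (ir_def hp hc) (irr_def H hp hc) (step_Rec H e ih hp hc)) (DFun.const 0)))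
      (DFun.const 0)
    refine ECD.dfun_congr h1 fun v => ?_
    by_cases h2 : (p v).Prime ∧ Wt (e + 1) (p v) fun i j => c i j v
    · rw [if_pos h2, if_pos h2]
      by_cases h3 : bp (ZMod (p v)) (fun i j => c i j v) = 0
      · rw [if_pos h3, cn_zero_Rec h3]
      · rw [if_neg h3]
        by_cases h4 : Nu (p v) fun i j => c i j v
        · rw [if_pos h4]
          by_cases h5 : Ir (p v) fun i j => c i j v
          · rw [if_pos h5, if_pos h5]
          · rw [if_neg h5, if_pos (show Cs e (p v) (fun i j => c i j v) from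
              ⟨h2.1, h2.2, h3, h4, h5⟩)]
        · rw [if_neg h4]
          refine cn_unit_Rec h2.1 ?_
          by_contra h5
          exact h4 ⟨h2.1, h5⟩
    · rw [if_neg h2, if_neg h2]

theorem cn_prime (H : CurveHyp) {D n : ℕ} {p : (Fin n → ℕ) → ℕ}
    {c : Fin (D + 1) → Fin (D + 1) → (Fin n → ℕ) → ℕ} (hp : DFun n p)
    (hc : ∀ i j, DFun n (c i j)) :
    DFun n (fun v => if (p v).Prime then CN (p v) (fun i j => c i j v) else 0) := by
  refine ECD.dfun_congr (rec_def H (D + D) hp hc) fun v => ?_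
  have h1 : Wt (D + D) (p v) fun i j => c i j v := by
    refine ⟨D, D, rfl, fun i j hij => ?_⟩
    rcases hij with hij | hij
    · have := i.2
      omega
    · have := j.2
      omega
  by_cases h2 : (p v).Prime
  · rw [if_pos h2, if_pos ⟨h2, h1⟩]
  · rw [if_neg h2, if_neg fun h => h2 h.1]

end Pool.Agent.CvD
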